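import Mathlib

/-!
# Strong colourings
-/

set_option autoImplicit false

namespace Pool.Agent.Helper79.SC

/-- For every partition of the vertex set into blocks of size exactly `k` (the fibres of `P`) there
is a proper colouring with `k` colours that is injective on every block (so every block meets every
colour class exactly once). -/
def BlockColourable {V : Type*} (G : SimpleGraph V) (k : ℕ) : Prop :=
  ∀ (m : ℕ) (P : V → Fin m), (∀ p, (P ⁻¹' {p}).ncard = k) →
    ∃ c : V → Fin k, (∀ u v, G.Adj u v → c u ≠ c v) ∧ ∀ u v, P u = P v → c u = c v → u = v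

/-- `G` is strongly `k`-colourable; if `k` does not divide the number `n` of vertices, then
`k ⌈n / k⌉ - n` isolated vertices are added first. -/
def StronglyColourable {V : Type*} (G : SimpleGraph V) (k : ℕ) : Prop :=
  if k ∣ Nat.card V then BlockColourable G k
  else BlockColourable
    (G ⊕g (⊥ : SimpleGraph (Fin (k * ⌈(Nat.card V : ℚ) / k⌉₊ - Nat.card V)))) k

/-- The strong chromatic number: the least `k ≥ 1` such that `G` is strongly `k`-colourable. -/
noncomputable def strongChromaticNumber {V : Type*} (G : SimpleGraph V) : ℕ :=
  sInf {k | 1 ≤ k ∧ StronglyColourable G k}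

/-- the number of triangles of `G` -/
noncomputable def triangles {V : Type*} (G : SimpleGraph V) : ℕ :=
  {s : Finset V | G.IsNClique 3 s}.ncard

/-- `G` has maximum degree exactly two. -/
def MaxDegreeTwo {V : Type*} (G : SimpleGraph V) : Prop :=
  (∀ v, (G.neighborSet v).ncard ≤ 2) ∧ ∃ v, (G.neighborSet v).ncard = 2

end Pool.Agent.Helper79.SC
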