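import Pool.Agent.Helper79.SC.Forest

/-!
# Graphs of maximum degree two with at most three triangles are strongly 4-colourable
-/

set_option autoImplicit false

namespace Pool.Agent.Helper79.SC

open Finset

variable {V : Type*} [Fintype V] [DecidableEq V] (G : SimpleGraph V) [DecidableRel G.Adj]

/-- the vertices of a component -/
noncomputable def supp (c : G.ConnectedComponent) : Finset V := by
  classical
  exact univ.filter (fun v => G.connectedComponentMk v = c)

omit [DecidableEq V] [DecidableRel G.Adj] in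
lemma mem_supp {c : G.ConnectedComponent} {v : V} :
    v ∈ supp G c ↔ G.connectedComponentMk v = c := by
  classical
  simp [supp]

/-- the cycles: components all of whose vertices have degree two -/
def Cy : Type _ := {c : G.ConnectedComponent //
  ∀ v, G.connectedComponentMk v = c → (univ.filter (G.Adj v)).card = 2}

omit [DecidableEq V] in
/-- A set that meets every cycle leaves a linear forest. -/
lemma acyclic_of_hit (h2 : ∀ v, (univ.filter (G.Adj v)).card ≤ 2) (S : Finset V)
    (hit : ∀ C : Cy G, ∃ v ∈ supp G C.1, v ∉ S) :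
    ∀ S' ⊆ S, S'.Nonempty → ∃ v ∈ S', (S'.filter (G.Adj v)).card ≤ 1 := by
  intro S' hS' hne
  by_contra hc
  push Not at hc
  have hfull : ∀ v ∈ S', S'.filter (G.Adj v) = univ.filter (G.Adj v) := by
    intro v hv
    apply Finset.eq_of_subset_of_card_le
    · exact Finset.filter_subset_filter _ (Finset.subset_univ _)
    · have := hc v hv
      have := h2 v
      omega
  have hcl : ∀ v ∈ S', ∀ w, G.Adj v w → w ∈ S' := by
    intro v hv w hvw
    have : w ∈ univ.filter (G.Adj v) := Finset.mem_filter.mpr ⟨Finset.mem_univ _, hvw⟩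
    rw [← hfull v hv] at this
    exact (Finset.mem_filter.mp this).1
  obtain ⟨v0, hv0⟩ := hne
  have hreach : ∀ w, G.Reachable v0 w → w ∈ S' := by
    intro w hw
    obtain ⟨p⟩ := hw
    have : ∀ (a b : V) (p : G.Walk a b), a ∈ S' → b ∈ S' := by
      intro a b p
      induction p with
      | nil => exact id
      | cons h _ ih => exact fun ha => ih (hcl _ ha _ h)
    exact this _ _ p hv0
  let C : Cy G := ⟨G.connectedComponentMk v0, by
    intro v hv
    have hvS : v ∈ S' := hreach v (SimpleGraph.ConnectedComponent.exact hv).symm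
    have h3 := hc v hvS
    have h4 := h2 v
    rw [hfull v hvS] at h3
    omega⟩
  obtain ⟨v, hv, hvS⟩ := hit C
  rw [mem_supp] at hv
  exact hvS (hS' (hreach v (SimpleGraph.ConnectedComponent.exact hv).symm))

omit [DecidableEq V] [DecidableRel G.Adj] in
lemma supp_disj {c d : G.ConnectedComponent} {v : V} (h1 : v ∈ supp G c) (h2 : v ∈ supp G d) :
    c = d := by
  rw [mem_supp] at h1 h2
  rw [← h1, h2]

omit [DecidableEq V] [DecidableRel G.Adj] in
lemma adj_supp {c : G.ConnectedComponent} {v w : V} (h1 : v ∈ supp G c) (h2 : G.Adj v w) :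
    w ∈ supp G c := by
  rw [mem_supp] at h1 ⊢
  rw [← h1]
  exact (SimpleGraph.ConnectedComponent.sound h2.symm.reachable)

/-- a cycle has at least three vertices, and exactly three only when it is a triangle -/
lemma card_supp (C : Cy G) : 3 ≤ (supp G C.1).card ∧
    ((supp G C.1).card = 3 → supp G C.1 ∈ G.cliqueFinset 3) := by
  obtain ⟨v, hv⟩ : ∃ v, v ∈ supp G C.1 := by
    obtain ⟨v, hv⟩ := C.1.exists_rep
    exact ⟨v, (mem_supp G).mpr hv⟩
  have hN : ∀ u ∈ supp G C.1, insert u (univ.filter (G.Adj u)) ⊆ supp G C.1 := by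
    intro u hu x hx
    rcases Finset.mem_insert.mp hx with rfl | hx
    · exact hu
    · exact adj_supp G hu (Finset.mem_filter.mp hx).2
  have hcard : ∀ u ∈ supp G C.1, (insert u (univ.filter (G.Adj u))).card = 3 := by
    intro u hu
    rw [Finset.card_insert_of_notMem (by simp), C.2 u ((mem_supp G).mp hu)]
  refine ⟨?_, ?_⟩
  · rw [← hcard v hv]
    exact Finset.card_le_card (hN v hv)
  · intro h3
    rw [SimpleGraph.mem_cliqueFinset_iff, SimpleGraph.isNClique_iff]
    refine ⟨?_, h3⟩
    intro a ha b hb hab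
    have hb' : b ∈ insert a (univ.filter (G.Adj a)) := by
      have : insert a (univ.filter (G.Adj a)) = supp G C.1 := by
        apply Finset.eq_of_subset_of_card_le (hN a ha)
        rw [hcard a ha, h3]
      rw [this]
      exact hb
    rcases Finset.mem_insert.mp hb' with h | h
    · exact absurd h.symm hab
    · exact (Finset.mem_filter.mp h).2

variable {ι : Type*} [Fintype ι] [DecidableEq ι]

lemma card_part (P : V → ι) (hP : ∀ p, (univ.filter (fun v => P v = p)).card = 4)
    (δ : ι → V) (hδ : ∀ p, P (δ p) = p) (p : ι) :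
    ((univ \ univ.image δ).filter (fun v => P v = p)).card = 3 := by
  have h1 : (univ \ univ.image δ).filter (fun v => P v = p) =
      (univ.filter (fun v => P v = p)).erase (δ p) := by
    ext v
    simp only [Finset.mem_filter, Finset.mem_sdiff, Finset.mem_univ, true_and, Finset.mem_image,
      not_exists, Finset.mem_erase]
    constructor
    · rintro ⟨h1, h2⟩
      exact ⟨fun h => h1 p h.symm, h2⟩
    · rintro ⟨h1, h2⟩
      refine ⟨fun q hq => ?_, h2⟩
      apply h1
      have : q = p := by rw [← hδ q, hq, h2]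
      rw [← this, hq]
  rw [h1, Finset.card_erase_of_mem, hP p]
  exact Finset.mem_filter.mpr ⟨Finset.mem_univ _, hδ p⟩

/-- The core: a system of distinct parts for the cycles gives a colouring. -/
theorem core (h2 : ∀ v, (univ.filter (G.Adj v)).card ≤ 2) (P : V → ι)
    (hP : ∀ p, (univ.filter (fun v => P v = p)).card = 4)
    (f : Cy G → ι) (hf : Function.Injective f) (v : Cy G → V)
    (hv : ∀ C, v C ∈ supp G C.1) (hPv : ∀ C, P (v C) = f C) :
    ∃ c : V → Fin 4, (∀ u w, G.Adj u w → c u ≠ c w) ∧
      (∀ u w, P u = P w → c u = c w → u = w) := by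
  classical
  -- first transversal: hits every cycle, not nec. independent
  have hne : ∀ p, ∃ u, P u = p := by
    intro p
    have : (univ.filter (fun v => P v = p)).Nonempty := by
      rw [← Finset.card_pos, hP p]
      norm_num
    obtain ⟨u, hu⟩ := this
    exact ⟨u, (Finset.mem_filter.mp hu).2⟩
  choose any hany using hne
  -- general construction
  let δ : (ι → V) → Set (Cy G) → ι → V := fun τ U p =>
    if h : ∃ C, C ∈ U ∧ f C = p then v h.choose else τ p
  have hδ1 : ∀ τ U C, C ∈ U → δ τ U (f C) = v C := by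
    intro τ U C hC
    have h : ∃ D, D ∈ U ∧ f D = f C := ⟨C, hC, rfl⟩
    have h' : δ τ U (f C) = v h.choose := dif_pos h
    rw [h', hf h.choose_spec.2]
  have hδ2 : ∀ τ U p, (¬ ∃ C, C ∈ U ∧ f C = p) → δ τ U p = τ p := by
    intro τ U p h
    exact dif_neg h
  have hδP : ∀ τ : ι → V, (∀ p, P (τ p) = p) → ∀ U p, P (δ τ U p) = p := by
    intro τ hτ U p
    by_cases h : ∃ C, C ∈ U ∧ f C = p
    · obtain ⟨C, hC, rfl⟩ := h
      rw [hδ1 τ U C hC, hPv]
    · rw [hδ2 τ U p h, hτ]
  -- first colouring
  have hS1 : ∀ C : Cy G, ∃ u ∈ supp G C.1, u ∉ univ \ univ.image (δ any Set.univ) := by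
    intro C
    refine ⟨v C, hv C, ?_⟩
    rw [Finset.mem_sdiff]
    push Not
    intro _
    rw [← hδ1 any Set.univ C trivial]
    exact Finset.mem_image_of_mem _ (Finset.mem_univ _)
  obtain ⟨c1, hc1, hc1'⟩ := forest_colour G h2 (univ \ univ.image (δ any Set.univ))
    (acyclic_of_hit G h2 _ hS1) P (card_part P hP _ (hδP any hany Set.univ))
  -- an independent transversal
  have hex : ∀ p, ∃ u, u ∈ univ \ univ.image (δ any Set.univ) ∧ P u = p ∧ c1 u = 0 := by
    intro p
    have h3 := card_part P hP _ (hδP any hany Set.univ) p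
    set A := (univ \ univ.image (δ any Set.univ)).filter (fun v => P v = p) with hA
    have hinj : Set.InjOn c1 A := by
      intro x hx y hy hxy
      have hx' := Finset.mem_filter.mp (Finset.mem_coe.mp hx)
      have hy' := Finset.mem_filter.mp (Finset.mem_coe.mp hy)
      exact hc1' x hx'.1 y hy'.1 (hx'.2.trans hy'.2.symm) hxy
    have h4 : A.image c1 = univ := by
      apply Finset.eq_univ_of_card
      rw [Finset.card_image_of_injOn hinj, h3, Fintype.card_fin]
    have h5 : (0 : Fin 3) ∈ A.image c1 := by rw [h4]; exact Finset.mem_univ _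
    obtain ⟨u, hu, hu0⟩ := Finset.mem_image.mp h5
    exact ⟨u, (Finset.mem_filter.mp hu).1, (Finset.mem_filter.mp hu).2, hu0⟩
  choose τ hτ1 hτ2 hτ3 using hex
  have hτind : ∀ p q, ¬ G.Adj (τ p) (τ q) := by
    intro p q h
    exact hc1 _ (hτ1 p) _ (hτ1 q) h (by rw [hτ3, hτ3])
  -- the fixed point
  let Φ : Set (Cy G) →o Set (Cy G) :=
    ⟨fun U => {C | ∀ p, τ p ∈ supp G C.1 → ∃ D, D ∈ U ∧ f D = p}, by
      intro U U' hU C hC p hp
      obtain ⟨D, hD, hDp⟩ := hC p hp
      exact ⟨D, hU hD, hDp⟩⟩
  set U := OrderHom.lfp Φ with hU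
  have hfix : ∀ C, C ∈ U ↔ ∀ p, τ p ∈ supp G C.1 → ∃ D, D ∈ U ∧ f D = p := by
    intro C
    have : Φ U = U := OrderHom.map_lfp Φ
    constructor
    · intro hC
      rw [← this] at hC
      exact hC
    · intro hC
      rw [← this]
      exact hC
  have hind : ∀ p q, ¬ G.Adj (δ τ U p) (δ τ U q) := by
    have key : ∀ C, C ∈ U → ∀ q, ¬ G.Adj (v C) (δ τ U q) := by
      intro C hC q hadj
      have hq := adj_supp G (hv C) hadj
      by_cases h : ∃ D, D ∈ U ∧ f D = q
      · obtain ⟨D, hD, rfl⟩ := h
        rw [hδ1 τ U D hD] at hq hadj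
        have : C = D := Subtype.ext (supp_disj G hq (hv D))
        subst this
        exact G.loopless.irrefl _ hadj
      · rw [hδ2 τ U q h] at hq
        exact h ((hfix C).mp hC q hq)
    intro p q hadj
    by_cases h : ∃ C, C ∈ U ∧ f C = p
    · obtain ⟨C, hC, rfl⟩ := h
      rw [hδ1 τ U C hC] at hadj
      exact key C hC q hadj
    · by_cases h' : ∃ C, C ∈ U ∧ f C = q
      · obtain ⟨C, hC, rfl⟩ := h'
        rw [hδ1 τ U C hC] at hadj
        exact key C hC p hadj.symm
      · rw [hδ2 τ U p h, hδ2 τ U q h'] at hadj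
        exact hτind p q hadj
  have hS2 : ∀ C : Cy G, ∃ u ∈ supp G C.1, u ∉ univ \ univ.image (δ τ U) := by
    intro C
    have hmem : ∀ p, δ τ U p ∉ univ \ univ.image (δ τ U) := by
      intro p
      rw [Finset.mem_sdiff]
      push Not
      intro _
      exact Finset.mem_image_of_mem _ (Finset.mem_univ _)
    by_cases hC : C ∈ U
    · refine ⟨v C, hv C, ?_⟩
      rw [← hδ1 τ U C hC]
      exact hmem _
    · have : ¬ ∀ p, τ p ∈ supp G C.1 → ∃ D, D ∈ U ∧ f D = p := fun h => hC ((hfix C).mpr h)
      push Not at this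
      obtain ⟨p, hp, hnp⟩ := this
      refine ⟨τ p, hp, ?_⟩
      have hnp' : ¬ ∃ D, D ∈ U ∧ f D = p := by
        rintro ⟨D, hD, hDp⟩
        exact hnp D hD hDp
      rw [← hδ2 τ U p hnp']
      exact hmem _
  obtain ⟨c2, hc2, hc2'⟩ := forest_colour G h2 (univ \ univ.image (δ τ U))
    (acyclic_of_hit G h2 _ hS2) P (card_part P hP _ (hδP τ hτ2 U))
  -- the final colouring
  have hS : ∀ u, u ∈ univ \ univ.image (δ τ U) ↔ ¬ ∃ p, δ τ U p = u := by
    intro u
    simp [Finset.mem_sdiff]
  refine ⟨fun u => if ∃ p, δ τ U p = u then 3 else (c2 u).castSucc, ?_, ?_⟩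
  · intro u w hadj
    by_cases hu : ∃ p, δ τ U p = u
    · by_cases hw : ∃ p, δ τ U p = w
      · obtain ⟨p, rfl⟩ := hu
        obtain ⟨q, rfl⟩ := hw
        exact absurd hadj (hind p q)
      · simp only [if_pos hu, if_neg hw]
        intro h
        exact absurd h.symm (Fin.castSucc_lt_last (c2 w)).ne
    · by_cases hw : ∃ p, δ τ U p = w
      · simp only [if_pos hw, if_neg hu]
        intro h
        exact absurd h (Fin.castSucc_lt_last (c2 u)).ne
      · simp only [if_neg hu, if_neg hw]
        intro h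
        exact hc2 u ((hS u).mpr hu) w ((hS w).mpr hw) hadj (Fin.castSucc_injective _ h)
  · intro u w hPuw hc
    by_cases hu : ∃ p, δ τ U p = u
    · by_cases hw : ∃ p, δ τ U p = w
      · obtain ⟨p, rfl⟩ := hu
        obtain ⟨q, rfl⟩ := hw
        rw [hδP τ hτ2, hδP τ hτ2] at hPuw
        rw [hPuw]
      · simp only [if_pos hu, if_neg hw] at hc
        exact absurd hc.symm (Fin.castSucc_lt_last (c2 w)).ne
    · by_cases hw : ∃ p, δ τ U p = w
      · simp only [if_pos hw, if_neg hu] at hc
        exact absurd hc (Fin.castSucc_lt_last (c2 u)).ne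
      · simp only [if_neg hu, if_neg hw] at hc
        exact hc2' u ((hS u).mpr hu) w ((hS w).mpr hw) hPuw (Fin.castSucc_injective _ hc)

omit [Fintype ι] in
/-- With at most three triangles the cycles have a system of distinct parts. -/
lemma hall (ht : (G.cliqueFinset 3).card ≤ 3) (P : V → ι)
    (hP : ∀ p, (univ.filter (fun v => P v = p)).card = 4) :
    ∃ f : Cy G → ι, Function.Injective f ∧ ∀ C, f C ∈ (supp G C.1).image P := by
  classical
  rw [← Finset.all_card_le_biUnion_card_iff_exists_injective (fun C : Cy G => (supp G C.1).image P)]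
  intro s
  have h1 : (s.biUnion (fun C => supp G C.1)).card ≤
      4 * (s.biUnion (fun C => (supp G C.1).image P)).card := by
    have h2 : s.biUnion (fun C => (supp G C.1).image P) =
        (s.biUnion (fun C => supp G C.1)).image P := by
      rw [Finset.biUnion_image]
    rw [h2]
    apply Finset.card_le_mul_card_image
    intro a _
    rw [← hP a]
    exact Finset.card_le_card (Finset.filter_subset_filter _ (Finset.subset_univ _))
  have h2 : (s.biUnion (fun C => supp G C.1)).card = ∑ C ∈ s, (supp G C.1).card := by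
    apply Finset.card_biUnion
    intro C _ D _ hCD
    show Disjoint (supp G C.1) (supp G D.1)
    rw [Finset.disjoint_left]
    intro v hv hv'
    exact hCD (Subtype.ext (supp_disj G hv hv'))
  have h3 : (s.filter (fun C => (supp G C.1).card = 3)).card ≤ 3 := by
    refine le_trans ?_ ht
    apply Finset.card_le_card_of_injOn (fun C : Cy G => supp G C.1)
    · intro C hC
      have := (Finset.mem_filter.mp (Finset.mem_coe.mp hC)).2
      exact Finset.mem_coe.mpr ((card_supp G C).2 this)
    · intro C _ D _ hCD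
      obtain ⟨v, hv⟩ := C.1.exists_rep
      have h1 : v ∈ supp G C.1 := (mem_supp G).mpr hv
      have h2 : v ∈ supp G D.1 := by
        have h3 : supp G C.1 = supp G D.1 := hCD
        rw [← h3]
        exact h1
      exact Subtype.ext (supp_disj G h1 h2)
  have h4 : 4 * s.card ≤ (∑ C ∈ s, (supp G C.1).card) +
      (s.filter (fun C => (supp G C.1).card = 3)).card := by
    rw [Finset.card_filter, ← Finset.sum_add_distrib, mul_comm, ← smul_eq_mul]
    apply Finset.card_nsmul_le_sum
    intro C _
    have := (card_supp G C).1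
    by_cases h : (supp G C.1).card = 3
    · rw [if_pos h, h]
    · rw [if_neg h]
      omega
  rw [h2] at h1
  omega

/-- **Main theorem**, partitions into blocks of size four. -/
theorem main (h2 : ∀ v, (univ.filter (G.Adj v)).card ≤ 2) (ht : (G.cliqueFinset 3).card ≤ 3)
    (P : V → ι) (hP : ∀ p, (univ.filter (fun v => P v = p)).card = 4) :
    ∃ c : V → Fin 4, (∀ u w, G.Adj u w → c u ≠ c w) ∧
      (∀ u w, P u = P w → c u = c w → u = w) := by
  obtain ⟨f, hf, hfP⟩ := hall G ht P hP
  have : ∀ C, ∃ v, v ∈ supp G C.1 ∧ P v = f C := by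
    intro C
    obtain ⟨v, hv, hv'⟩ := Finset.mem_image.mp (hfP C)
    exact ⟨v, hv, hv'⟩
  choose v hv hv' using this
  exact core G h2 P hP f hf v hv hv'

end Pool.Agent.Helper79.SC
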