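import Pool.Agent.Helper79.SC.Defs
import Pool.Agent.Helper79.SC.Main

/-!
# The statement in terms of the strong chromatic number
-/

set_option autoImplicit false

namespace Pool.Agent.Helper79.SC

open Finset

variable {V : Type*} [Finite V]

lemma block (G : SimpleGraph V) (h2 : ∀ v, (G.neighborSet v).ncard ≤ 2)
    (ht : triangles G ≤ 3) : BlockColourable G 4 := by
  classical
  intro m P hP
  have : Fintype V := Fintype.ofFinite V
  apply main G _ _ P
  · intro p
    rw [← hP p, Set.ncard_eq_toFinset_card']
    congr 1
    ext v
    simp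
  · intro v
    have := h2 v
    rw [Set.ncard_eq_toFinset_card'] at this
    refine le_trans (le_of_eq ?_) this
    congr 1
    ext v
    simp
  · refine le_trans (le_of_eq ?_) ht
    rw [triangles, Set.ncard_eq_toFinset_card']
    congr 1
    ext v
    simp [SimpleGraph.mem_cliqueFinset_iff]

lemma neighbor_inl {W : Type*} (G : SimpleGraph V) (v : V) :
    (G ⊕g (⊥ : SimpleGraph W)).neighborSet (Sum.inl v) = Sum.inl '' G.neighborSet v := by
  ext x
  rcases x with x | x <;> simp

lemma neighbor_inr {W : Type*} (G : SimpleGraph V) (v : W) :
    (G ⊕g (⊥ : SimpleGraph W)).neighborSet (Sum.inr v) = ∅ := by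
  ext x
  rcases x with x | x <;> simp

lemma triangles_sum {W : Type*} [Finite W] (G : SimpleGraph V) :
    triangles (G ⊕g (⊥ : SimpleGraph W)) ≤ triangles G := by
  classical
  have h : {s : Finset (V ⊕ W) | (G ⊕g (⊥ : SimpleGraph W)).IsNClique 3 s} ⊆
      (fun s : Finset V => s.map Function.Embedding.inl) '' {s : Finset V | G.IsNClique 3 s} := by
    intro s hs
    rw [Set.mem_setOf_eq, SimpleGraph.isNClique_iff] at hs
    obtain ⟨hc, h3⟩ := hs
    have hl : ∀ x ∈ s, ∃ v, x = Sum.inl v := by
      intro x hx
      rcases x with v | w
      · exact ⟨v, rfl⟩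
      · obtain ⟨y, hy, hne⟩ : ∃ y ∈ s, y ≠ Sum.inr w := by
          by_contra hcon
          push Not at hcon
          have : s ⊆ {Sum.inr w} := fun y hy => Finset.mem_singleton.mpr (hcon y hy)
          have := Finset.card_le_card this
          rw [h3, Finset.card_singleton] at this
          omega
        have := hc hx hy hne.symm
        rcases y with y | y <;> simp at this
    refine ⟨s.preimage Sum.inl (Sum.inl_injective.injOn), ?_, ?_⟩
    · have hs' : (s.preimage Sum.inl (Sum.inl_injective.injOn)).map
          (Function.Embedding.inl : V ↪ V ⊕ W) = s := by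
        ext x
        simp only [Finset.mem_map, Finset.mem_preimage, Function.Embedding.inl_apply]
        constructor
        · rintro ⟨a, ha, rfl⟩
          exact ha
        · intro hx
          obtain ⟨v, rfl⟩ := hl x hx
          exact ⟨v, hx, rfl⟩
      rw [Set.mem_setOf_eq, SimpleGraph.isNClique_iff]
      constructor
      · intro a ha b hb hab
        have ha' : (Sum.inl a : V ⊕ W) ∈ s := by simpa using ha
        have hb' : (Sum.inl b : V ⊕ W) ∈ s := by simpa using hb
        have := hc ha' hb' (fun h => hab (Sum.inl_injective h))
        simpa using this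
      · rw [← h3, ← Finset.card_map (Function.Embedding.inl : V ↪ V ⊕ W), hs']
    · ext x
      simp only [Finset.mem_map, Finset.mem_preimage, Function.Embedding.inl_apply]
      constructor
      · rintro ⟨a, ha, rfl⟩
        exact ha
      · intro hx
        obtain ⟨v, rfl⟩ := hl x hx
        exact ⟨v, hx, rfl⟩
  exact (Set.ncard_le_ncard h (Set.toFinite _)).trans (Set.ncard_image_le (Set.toFinite _))

theorem strongly (G : SimpleGraph V) (h2 : ∀ v, (G.neighborSet v).ncard ≤ 2)
    (ht : triangles G ≤ 3) : StronglyColourable G 4 := by
  rw [StronglyColourable]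
  split_ifs with h
  · exact block G h2 ht
  · apply block
    · intro v
      rcases v with v | v
      · rw [neighbor_inl, Set.ncard_image_of_injective _ Sum.inl_injective]
        exact h2 v
      · rw [neighbor_inr]
        simp
    · exact (triangles_sum G).trans ht

theorem strong_le (G : SimpleGraph V) (h2 : ∀ v, (G.neighborSet v).ncard ≤ 2)
    (ht : triangles G ≤ 3) : strongChromaticNumber G ≤ 4 :=
  Nat.sInf_le ⟨by norm_num, strongly G h2 ht⟩

end Pool.Agent.Helper79.SC
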