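import Pool.Agent.Helper79.SC.Path4

/-!
# A triangle and a Hamiltonian path of the rest plus disjoint triangles is 3-colourable
-/

set_option autoImplicit false

namespace Pool.Agent.Helper79.SC

open Finset

variable {ι : Type*} [Fintype ι] [DecidableEq ι]

lemma bracket_zero {K : Type*} [CommRing K] [CharP K 2] (a b c : K) (ha : a ^ 3 = 1)
    (hb : b ^ 3 = 1) (h : a = b ∨ b = c ∨ a = c) :
    a * (a + b) * (b + c) + a * (a + c) * (c + b) + b * (b + a) * (a + c) + (a * b * c) ^ 2 + 1
      = 0 := by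
  have h2 : (2 : K) = 0 := CharTwo.two_eq_zero
  rcases h with h | h | h
  · subst h
    linear_combination (1 + a * c ^ 2) * ha + (1 + a * c ^ 2 + 3 * a ^ 2 * c + 2 * a ^ 3) * h2
  · subst h
    linear_combination (1 + a ^ 2 * b) * hb + (1 + 3 * a ^ 2 * b + 3 * a * b ^ 2) * h2
  · subst h
    linear_combination (1 + a * b ^ 2) * ha +
      (1 + 2 * a * b ^ 2 + 3 * a ^ 2 * b + a ^ 3) * h2

/-- A triangle and a Hamiltonian path of the other vertices, plus disjoint triangles. -/
theorem tri_colour {n : ℕ} (e : ι × Fin 3 ≃ Fin 3 ⊕ Fin n) :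
    ∃ x : ι → Equiv.Perm (Fin 3),
      (∀ i j : Fin 3, i ≠ j → x (e.symm (Sum.inl i)).1 (e.symm (Sum.inl i)).2 ≠
        x (e.symm (Sum.inl j)).1 (e.symm (Sum.inl j)).2) ∧
      ∀ i j : Fin n, (i : ℕ) + 1 = j →
        x (e.symm (Sum.inr i)).1 (e.symm (Sum.inr i)).2 ≠
          x (e.symm (Sum.inr j)).1 (e.symm (Sum.inr j)).2 := by
  rcases n with _ | n
  · have hcard : Fintype.card ι = 1 := by
      have := Fintype.card_congr e
      simp at this
      omega
    have hsub : Subsingleton ι := Fintype.card_le_one_iff_subsingleton.mp hcard.le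
    refine ⟨fun _ => 1, ?_, fun i => i.elim0⟩
    intro i j hij h
    apply hij
    have h1 : e.symm (Sum.inl i) = e.symm (Sum.inl j) := Prod.ext (Subsingleton.elim _ _) h
    exact Sum.inl_injective (e.symm.injective h1)
  · obtain ⟨w, hw⟩ : ∃ w : AlgebraicClosure (ZMod 2), w ^ 2 + w + 1 = 0 := by
      have hd : (Polynomial.X ^ 2 + Polynomial.X + 1 :
          Polynomial (AlgebraicClosure (ZMod 2))).degree ≠ 0 := by
        have : (Polynomial.X ^ 2 + Polynomial.X + 1 :
            Polynomial (AlgebraicClosure (ZMod 2))).degree = 2 := by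
          compute_degree!
        rw [this]
        decide
      obtain ⟨w, hw⟩ := IsAlgClosed.exists_root _ hd
      exact ⟨w, by simpa [Polynomial.IsRoot] using hw⟩
    have : CharP (AlgebraicClosure (ZMod 2)) 2 := inferInstance
    have hw3 : w ^ 3 = 1 := by linear_combination (w - 1) * hw
    let e' : ι × Fin 3 ≃ Fin (n + 1 + 3) :=
      e.trans (finSumFinEquiv.trans (finCongr (by omega : 3 + (n + 1) = n + 1 + 3)))
    have hl : ∀ i : Fin 3, ∀ k : Fin (n + 1 + 3), (k : ℕ) = i → e'.symm k = e.symm (Sum.inl i) := by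
      intro i k hk
      rw [Equiv.symm_apply_eq]
      ext
      simp [e', hk]
    have hr : ∀ i : Fin (n + 1), ∀ k : Fin (n + 1 + 3), (k : ℕ) = 3 + i →
        e'.symm k = e.symm (Sum.inr i) := by
      intro i k hk
      rw [Equiv.symm_apply_eq]
      ext
      simp [e', hk]
      omega
    have h := tri_sum w hw e'
    have hne : ∃ x : ι → Equiv.Perm (Fin 3),
      (Y e' w x 0 * (Y e' w x 0 + Y e' w x 1) * (Y e' w x 1 + Y e' w x 2) +
       Y e' w x 0 * (Y e' w x 0 + Y e' w x 2) * (Y e' w x 2 + Y e' w x 1) +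
       Y e' w x 1 * (Y e' w x 1 + Y e' w x 0) * (Y e' w x 0 + Y e' w x 2) +
       (Y e' w x 0 * Y e' w x 1 * Y e' w x 2) ^ 2 + 1) *
      (tl (Y e' w x) 0 * Q (tl (Y e' w x))) ≠ 0 := by
      by_contra hc
      push Not at hc
      rw [Finset.sum_eq_zero (fun x _ => hc x)] at h
      exact zero_ne_one h
    obtain ⟨x, hx⟩ := hne
    have hb := left_ne_zero_of_mul hx
    have hQ := right_ne_zero_of_mul (right_ne_zero_of_mul hx)
    have hY3 : ∀ k, Y e' w x k ^ 3 = 1 := by
      intro k
      rw [Y, ← pow_mul, mul_comm, pow_mul, hw3, one_pow]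
    refine ⟨x, ?_, ?_⟩
    · have k0 := hl 0 0 rfl
      have k1 := hl 1 1 rfl
      have k2 := hl 2 2 rfl
      have heq : ∀ (i j : Fin 3) (k l : Fin (n + 1 + 3)), (k : ℕ) = i → (l : ℕ) = j →
          x (e.symm (Sum.inl i)).1 (e.symm (Sum.inl i)).2 =
          x (e.symm (Sum.inl j)).1 (e.symm (Sum.inl j)).2 → Y e' w x k = Y e' w x l := by
        intro i j k l hk hl' h
        rw [Y, Y, hl i k hk, hl j l hl', h]
      have n01 : x (e.symm (Sum.inl 0)).1 (e.symm (Sum.inl 0)).2 ≠
          x (e.symm (Sum.inl 1)).1 (e.symm (Sum.inl 1)).2 := fun h =>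
        hb (bracket_zero _ _ _ (hY3 0) (hY3 1) (Or.inl (heq 0 1 0 1 rfl rfl h)))
      have n12 : x (e.symm (Sum.inl 1)).1 (e.symm (Sum.inl 1)).2 ≠
          x (e.symm (Sum.inl 2)).1 (e.symm (Sum.inl 2)).2 := fun h =>
        hb (bracket_zero _ _ _ (hY3 0) (hY3 1) (Or.inr (Or.inl (heq 1 2 1 2 rfl rfl h))))
      have n02 : x (e.symm (Sum.inl 0)).1 (e.symm (Sum.inl 0)).2 ≠
          x (e.symm (Sum.inl 2)).1 (e.symm (Sum.inl 2)).2 := fun h =>
        hb (bracket_zero _ _ _ (hY3 0) (hY3 1) (Or.inr (Or.inr (heq 0 2 0 2 rfl rfl h))))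
      intro i j hij
      fin_cases i <;> fin_cases j <;>
        first
        | exact absurd rfl hij
        | exact n01
        | exact n12
        | exact n02
        | exact n01.symm
        | exact n12.symm
        | exact n02.symm
    · intro i j hij heq
      have hi : (i : ℕ) < n := by omega
      have := Finset.prod_ne_zero_iff.mp hQ ⟨i, hi⟩ (Finset.mem_univ _)
      apply this
      have e1 : (⟨i, hi⟩ : Fin n).castSucc = i := by
        ext; rfl
      have e2 : (⟨i, hi⟩ : Fin n).succ = j := by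
        ext; simpa using hij
      rw [e1, e2]
      simp only [tl, Y]
      rw [hr i i.succ.succ.succ (by simp only [Fin.val_succ]; omega),
        hr j j.succ.succ.succ (by simp only [Fin.val_succ]; omega), heq]
      exact CharTwo.add_self_eq_zero _

end Pool.Agent.Helper79.SC
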