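import Pool.Agent.Helper79.SC.Forest
import Pool.Agent.Helper79.SC.Path5

/-!
# A triangle and a linear forest plus triangles
-/

set_option autoImplicit false

namespace Pool.Agent.Helper79.SC

open Finset

variable {W : Type*} [Fintype W] [DecidableEq W] (G : SimpleGraph W) [DecidableRel G.Adj]
variable {ι : Type*} [Fintype ι] [DecidableEq ι]

/-- One triangle and a linear forest plus triangles is 3-colourable. -/
theorem forest_tri_colour (h2 : ∀ v, (univ.filter (G.Adj v)).card ≤ 2)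
    (S T : Finset W) (hTS : T ⊆ S) (hT3 : T.card = 3)
    (hno : ∀ u ∈ T, ∀ v ∈ S, v ∉ T → ¬ G.Adj u v)
    (hac : ∀ S' ⊆ S \ T, S'.Nonempty → ∃ v ∈ S', (S'.filter (G.Adj v)).card ≤ 1)
    (P : W → ι) (hP : ∀ p, (S.filter (fun v => P v = p)).card = 3) :
    ∃ c : W → Fin 3, (∀ u ∈ S, ∀ v ∈ S, G.Adj u v → c u ≠ c v) ∧
      (∀ u ∈ S, ∀ v ∈ S, P u = P v → c u = c v → u = v) := by
  classical
  obtain ⟨pos, hinj, hbet⟩ := exists_good G h2 (S \ T) hac
  -- the order of the rest
  let R : Finset W := S \ T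
  let pos' : R → ℚ := fun v => pos v
  have hpos' : Function.Injective pos' := by
    intro u v h
    exact Subtype.ext (hinj u u.2 v v.2 h)
  let _ : LinearOrder R := LinearOrder.lift' pos' hpos'
  have hlt : ∀ u v : R, u < v ↔ pos u < pos v := fun u v => Iff.rfl
  let f : Fin (Fintype.card R) ≃o R := monoEquivOfFin R rfl
  let eT : T ≃ Fin 3 := Fintype.equivFinOfCardEq (by rw [Fintype.card_coe, hT3])
  have hRS : ∀ v, v ∈ R → v ∈ S := fun v hv => (Finset.mem_sdiff.mp hv).1
  -- the decomposition of `S`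
  let g0 : T ⊕ R → S := Sum.elim (fun t => ⟨t.1, hTS t.2⟩) (fun r => ⟨r.1, hRS r.1 r.2⟩)
  have hg0 : Function.Bijective g0 := by
    constructor
    · intro a b hab
      rcases a with a | a <;> rcases b with b | b
      · have : (a : W) = b := congrArg (fun z : S => (z : W)) hab
        rw [Subtype.ext this]
      · have : (a : W) = b := congrArg (fun z : S => (z : W)) hab
        have hb := (Finset.mem_sdiff.mp b.2).2
        rw [← this] at hb
        exact absurd a.2 hb
      · have : (a : W) = b := congrArg (fun z : S => (z : W)) hab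
        have hb := (Finset.mem_sdiff.mp a.2).2
        rw [this] at hb
        exact absurd b.2 hb
      · have : (a : W) = b := congrArg (fun z : S => (z : W)) hab
        rw [Subtype.ext this]
    · intro v
      by_cases h : (v : W) ∈ T
      · exact ⟨Sum.inl ⟨v, h⟩, rfl⟩
      · exact ⟨Sum.inr ⟨v, Finset.mem_sdiff.mpr ⟨v.2, h⟩⟩, rfl⟩
  let g : T ⊕ R ≃ S := Equiv.ofBijective g0 hg0
  -- the parts
  have hfib : ∀ p, Nonempty (Fin 3 ≃ {v : S // P v = p}) := by
    intro p
    have hc : Fintype.card {v : S // P v = p} = 3 := by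
      rw [← hP p, Fintype.card_subtype]
      rw [← Finset.card_map (Function.Embedding.subtype (fun v => v ∈ S))]
      congr 1
      ext v
      simp only [Finset.mem_map, Finset.mem_filter, Finset.mem_univ, true_and,
        Function.Embedding.subtype_apply]
      constructor
      · rintro ⟨a, ha, rfl⟩
        exact ⟨a.2, ha⟩
      · rintro ⟨ha, hb⟩
        exact ⟨⟨v, ha⟩, hb, rfl⟩
    exact ⟨(Fintype.equivFinOfCardEq hc).symm⟩
  let h : ∀ p, Fin 3 ≃ {v : S // P v = p} := fun p => (hfib p).some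
  let e1 : ι × Fin 3 ≃ S :=
    ((Equiv.sigmaEquivProd ι (Fin 3)).symm.trans (Equiv.sigmaCongrRight h)).trans
      (Equiv.sigmaFiberEquiv (fun v : S => P v))
  have he1 : ∀ x, P (e1 x) = x.1 := by
    intro x
    exact (h x.1 x.2).2
  let e : ι × Fin 3 ≃ Fin 3 ⊕ Fin (Fintype.card R) :=
    e1.trans (g.symm.trans (Equiv.sumCongr eT f.symm.toEquiv))
  have hel : ∀ (v : W) (hv : v ∈ T), e.symm (Sum.inl (eT ⟨v, hv⟩)) = e1.symm ⟨v, hTS hv⟩ := by
    intro v hv
    rw [Equiv.symm_apply_eq]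
    have : g.symm ⟨v, hTS hv⟩ = Sum.inl ⟨v, hv⟩ := by
      rw [Equiv.symm_apply_eq]
      rfl
    simp [e, this]
  have her : ∀ (v : W) (hv : v ∈ R), e.symm (Sum.inr (f.symm ⟨v, hv⟩)) =
      e1.symm ⟨v, hRS v hv⟩ := by
    intro v hv
    rw [Equiv.symm_apply_eq]
    have : g.symm ⟨v, hRS v hv⟩ = Sum.inr ⟨v, hv⟩ := by
      rw [Equiv.symm_apply_eq]
      rfl
    simp [e, this]
  obtain ⟨x, hx1, hx2⟩ := tri_colour e
  let c : W → Fin 3 := fun v => if hv : v ∈ S then
    x (e1.symm ⟨v, hv⟩).1 (e1.symm ⟨v, hv⟩).2 else 0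
  have hc : ∀ v (hv : v ∈ S), c v = x (e1.symm ⟨v, hv⟩).1 (e1.symm ⟨v, hv⟩).2 := by
    intro v hv
    simp only [c, dif_pos hv]
  -- adjacent and increasing implies consecutive
  have hadj : ∀ u (hu : u ∈ R) v (hv : v ∈ R), G.Adj u v → pos u < pos v → c u ≠ c v := by
    intro u hu v hv huv hlt'
    rw [hc u (hRS u hu), hc v (hRS v hv)]
    have h1 : f.symm ⟨u, hu⟩ < f.symm ⟨v, hv⟩ := by
      rw [f.symm.lt_iff_lt, hlt]
      exact hlt'
    have h3 : ((f.symm ⟨u, hu⟩ : Fin _) : ℕ) + 1 = (f.symm ⟨v, hv⟩ : Fin _) := by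
      by_contra hne
      have h4 : ((f.symm ⟨u, hu⟩ : Fin _) : ℕ) < (f.symm ⟨v, hv⟩ : Fin _) := h1
      have h5 : ((f.symm ⟨u, hu⟩ : Fin _) : ℕ) + 1 < (f.symm ⟨v, hv⟩ : Fin _) := by omega
      have h6 := (f.symm ⟨v, hv⟩).2
      let k : Fin (Fintype.card R) := ⟨(f.symm ⟨u, hu⟩ : ℕ) + 1, h5.trans h6⟩
      have h7 : f.symm ⟨u, hu⟩ < k := by
        rw [Fin.lt_def]
        exact Nat.lt_succ_self _
      have h8 : k < f.symm ⟨v, hv⟩ := by
        rw [Fin.lt_def]
        exact h5
      have h9 : (⟨u, hu⟩ : R) < f k := by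
        have := f.lt_iff_lt.mpr h7
        rwa [OrderIso.apply_symm_apply] at this
      have h10 : f k < (⟨v, hv⟩ : R) := by
        have := f.lt_iff_lt.mpr h8
        rwa [OrderIso.apply_symm_apply] at this
      rw [hlt] at h9 h10
      exact hbet u hu v hv huv (f k) (f k).2 h9 h10
    have h4 := hx2 _ _ h3
    rw [her u hu, her v hv] at h4
    exact h4
  have hR : ∀ u (hu : u ∈ R) v (hv : v ∈ R), G.Adj u v → c u ≠ c v := by
    intro u hu v hv huv
    rcases lt_trichotomy (pos u) (pos v) with h | h | h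
    · exact hadj u hu v hv huv h
    · exact absurd (hinj u hu v hv h) huv.ne
    · exact (hadj v hv u hu huv.symm h).symm
  refine ⟨c, ?_, ?_⟩
  · intro u hu v hv huv
    by_cases huT : u ∈ T
    · by_cases hvT : v ∈ T
      · rw [hc u hu, hc v hv, ← hel u huT, ← hel v hvT]
        apply hx1
        intro h
        exact huv.ne (congrArg Subtype.val (eT.injective h))
      · exact absurd huv (hno u huT v hv hvT)
    · by_cases hvT : v ∈ T
      · exact absurd huv.symm (hno v hvT u hu huT)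
      · exact hR u (Finset.mem_sdiff.mpr ⟨hu, huT⟩) v (Finset.mem_sdiff.mpr ⟨hv, hvT⟩) huv
  · intro u hu v hv hPuv hcuv
    rw [hc u hu, hc v hv] at hcuv
    have h1 : (e1.symm ⟨u, hu⟩).1 = (e1.symm ⟨v, hv⟩).1 := by
      rw [← he1, ← he1, Equiv.apply_symm_apply, Equiv.apply_symm_apply]
      exact hPuv
    rw [h1] at hcuv
    have h3 := (x _).injective hcuv
    have h4 : e1.symm ⟨u, hu⟩ = e1.symm ⟨v, hv⟩ := Prod.ext h1 h3
    have h5 := e1.symm.injective h4
    exact congrArg Subtype.val h5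

end Pool.Agent.Helper79.SC
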