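import Pool.Agent.Helper79.SC.Main
import Pool.Agent.Helper79.SC.Forest2

/-!
# Graphs of maximum degree two with at most seven triangles are strongly 4-colourable
-/

set_option autoImplicit false

namespace Pool.Agent.Helper79.SC

open Finset

variable {V : Type*} [Fintype V] [DecidableEq V] (G : SimpleGraph V) [DecidableRel G.Adj]
variable {ι : Type*} [Fintype ι] [DecidableEq ι]

/-- A set that meets every cycle except possibly one triangle is 3-colourable. -/
theorem colour3 (h2 : ∀ v, (univ.filter (G.Adj v)).card ≤ 2) (T0 : Cy G)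
    (hT0 : (supp G T0.1).card = 3) (S : Finset V)
    (hit : ∀ C : Cy G, C ≠ T0 → ∃ v ∈ supp G C.1, v ∉ S)
    (P : V → ι) (hP : ∀ p, (S.filter (fun v => P v = p)).card = 3) :
    ∃ c : V → Fin 3, (∀ u ∈ S, ∀ v ∈ S, G.Adj u v → c u ≠ c v) ∧
      (∀ u ∈ S, ∀ v ∈ S, P u = P v → c u = c v → u = v) := by
  classical
  by_cases h : ∃ v ∈ supp G T0.1, v ∉ S
  · apply forest_colour G h2 S (acyclic_of_hit G h2 S _) P hP
    intro C
    by_cases hC : C = T0
    · rw [hC]
      exact h
    · exact hit C hC
  · push Not at h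
    apply forest_tri_colour G h2 S (supp G T0.1) h hT0
    · intro u hu v _ hv hadj
      exact hv (adj_supp G hu hadj)
    · apply acyclic_of_hit G h2 (S \ supp G T0.1)
      intro C
      by_cases hC : C = T0
      · obtain ⟨v, hv⟩ := C.1.exists_rep
        refine ⟨v, (mem_supp G).mpr hv, ?_⟩
        rw [Finset.mem_sdiff]
        push Not
        intro _
        rw [← hC]
        exact (mem_supp G).mpr hv
      · obtain ⟨v, hv, hvS⟩ := hit C hC
        exact ⟨v, hv, fun h => hvS (Finset.mem_sdiff.mp h).1⟩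
    · exact hP

/-- The core: a system of distinct parts for all the cycles but one triangle gives a colouring. -/
theorem core2 (h2 : ∀ v, (univ.filter (G.Adj v)).card ≤ 2) (T0 : Cy G)
    (hT0 : (supp G T0.1).card = 3) (P : V → ι)
    (hP : ∀ p, (univ.filter (fun v => P v = p)).card = 4)
    (f : {C : Cy G // C ≠ T0} → ι) (hf : Function.Injective f) (v : {C : Cy G // C ≠ T0} → V)
    (hv : ∀ C, v C ∈ supp G C.1.1) (hPv : ∀ C, P (v C) = f C) :
    ∃ c : V → Fin 4, (∀ u w, G.Adj u w → c u ≠ c w) ∧
      (∀ u w, P u = P w → c u = c w → u = w) := by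
  classical
  -- first transversal: hits every cycle, not nec. independent
  have hne : ∀ p, ∃ u, P u = p := by
    intro p
    have : (univ.filter (fun v => P v = p)).Nonempty := by
      rw [← Finset.card_pos, hP p]
      norm_num
    obtain ⟨u, hu⟩ := this
    exact ⟨u, (Finset.mem_filter.mp hu).2⟩
  choose any hany using hne
  -- general construction
  let δ : (ι → V) → Set {C : Cy G // C ≠ T0} → ι → V := fun τ U p =>
    if h : ∃ C, C ∈ U ∧ f C = p then v h.choose else τ p
  have hδ1 : ∀ τ U C, C ∈ U → δ τ U (f C) = v C := by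
    intro τ U C hC
    have h : ∃ D, D ∈ U ∧ f D = f C := ⟨C, hC, rfl⟩
    have h' : δ τ U (f C) = v h.choose := dif_pos h
    rw [h', hf h.choose_spec.2]
  have hδ2 : ∀ τ U p, (¬ ∃ C, C ∈ U ∧ f C = p) → δ τ U p = τ p := by
    intro τ U p h
    exact dif_neg h
  have hδP : ∀ τ : ι → V, (∀ p, P (τ p) = p) → ∀ U p, P (δ τ U p) = p := by
    intro τ hτ U p
    by_cases h : ∃ C, C ∈ U ∧ f C = p
    · obtain ⟨C, hC, rfl⟩ := h
      rw [hδ1 τ U C hC, hPv]
    · rw [hδ2 τ U p h, hτ]
  -- first colouring
  have hS1 : ∀ C : Cy G, C ≠ T0 → ∃ u ∈ supp G C.1, u ∉ univ \ univ.image (δ any Set.univ) := by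
    intro C hCT
    refine ⟨v ⟨C, hCT⟩, hv ⟨C, hCT⟩, ?_⟩
    rw [Finset.mem_sdiff]
    push Not
    intro _
    rw [← hδ1 any Set.univ ⟨C, hCT⟩ trivial]
    exact Finset.mem_image_of_mem _ (Finset.mem_univ _)
  obtain ⟨c1, hc1, hc1'⟩ := colour3 G h2 T0 hT0 (univ \ univ.image (δ any Set.univ))
    hS1 P (card_part P hP _ (hδP any hany Set.univ))
  -- an independent transversal
  have hex : ∀ p, ∃ u, u ∈ univ \ univ.image (δ any Set.univ) ∧ P u = p ∧ c1 u = 0 := by
    intro p
    have h3 := card_part P hP _ (hδP any hany Set.univ) p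
    set A := (univ \ univ.image (δ any Set.univ)).filter (fun v => P v = p) with hA
    have hinj : Set.InjOn c1 A := by
      intro x hx y hy hxy
      have hx' := Finset.mem_filter.mp (Finset.mem_coe.mp hx)
      have hy' := Finset.mem_filter.mp (Finset.mem_coe.mp hy)
      exact hc1' x hx'.1 y hy'.1 (hx'.2.trans hy'.2.symm) hxy
    have h4 : A.image c1 = univ := by
      apply Finset.eq_univ_of_card
      rw [Finset.card_image_of_injOn hinj, h3, Fintype.card_fin]
    have h5 : (0 : Fin 3) ∈ A.image c1 := by rw [h4]; exact Finset.mem_univ _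
    obtain ⟨u, hu, hu0⟩ := Finset.mem_image.mp h5
    exact ⟨u, (Finset.mem_filter.mp hu).1, (Finset.mem_filter.mp hu).2, hu0⟩
  choose τ hτ1 hτ2 hτ3 using hex
  have hτind : ∀ p q, ¬ G.Adj (τ p) (τ q) := by
    intro p q h
    exact hc1 _ (hτ1 p) _ (hτ1 q) h (by rw [hτ3, hτ3])
  -- the fixed point
  let Φ : Set {C : Cy G // C ≠ T0} →o Set {C : Cy G // C ≠ T0} :=
    ⟨fun U => {C | ∀ p, τ p ∈ supp G C.1.1 → ∃ D, D ∈ U ∧ f D = p}, by
      intro U U' hU C hC p hp
      obtain ⟨D, hD, hDp⟩ := hC p hp
      exact ⟨D, hU hD, hDp⟩⟩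
  set U := OrderHom.lfp Φ with hU
  have hfix : ∀ C, C ∈ U ↔ ∀ p, τ p ∈ supp G C.1.1 → ∃ D, D ∈ U ∧ f D = p := by
    intro C
    have : Φ U = U := OrderHom.map_lfp Φ
    constructor
    · intro hC
      rw [← this] at hC
      exact hC
    · intro hC
      rw [← this]
      exact hC
  have hind : ∀ p q, ¬ G.Adj (δ τ U p) (δ τ U q) := by
    have key : ∀ C, C ∈ U → ∀ q, ¬ G.Adj (v C) (δ τ U q) := by
      intro C hC q hadj
      have hq := adj_supp G (hv C) hadj
      by_cases h : ∃ D, D ∈ U ∧ f D = q
      · obtain ⟨D, hD, rfl⟩ := h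
        rw [hδ1 τ U D hD] at hq hadj
        have : C = D := Subtype.ext (Subtype.ext (supp_disj G hq (hv D)))
        subst this
        exact G.loopless.irrefl _ hadj
      · rw [hδ2 τ U q h] at hq
        exact h ((hfix C).mp hC q hq)
    intro p q hadj
    by_cases h : ∃ C, C ∈ U ∧ f C = p
    · obtain ⟨C, hC, rfl⟩ := h
      rw [hδ1 τ U C hC] at hadj
      exact key C hC q hadj
    · by_cases h' : ∃ C, C ∈ U ∧ f C = q
      · obtain ⟨C, hC, rfl⟩ := h'
        rw [hδ1 τ U C hC] at hadj
        exact key C hC p hadj.symm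
      · rw [hδ2 τ U p h, hδ2 τ U q h'] at hadj
        exact hτind p q hadj
  have hS2 : ∀ C : Cy G, C ≠ T0 → ∃ u ∈ supp G C.1, u ∉ univ \ univ.image (δ τ U) := by
    intro C0 hCT
    obtain ⟨C, rfl⟩ : ∃ C : {C : Cy G // C ≠ T0}, C.1 = C0 := ⟨⟨C0, hCT⟩, rfl⟩
    have hmem : ∀ p, δ τ U p ∉ univ \ univ.image (δ τ U) := by
      intro p
      rw [Finset.mem_sdiff]
      push Not
      intro _
      exact Finset.mem_image_of_mem _ (Finset.mem_univ _)
    by_cases hC : C ∈ U
    · refine ⟨v C, hv C, ?_⟩
      rw [← hδ1 τ U C hC]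
      exact hmem _
    · have : ¬ ∀ p, τ p ∈ supp G C.1.1 → ∃ D, D ∈ U ∧ f D = p := fun h => hC ((hfix C).mpr h)
      push Not at this
      obtain ⟨p, hp, hnp⟩ := this
      refine ⟨τ p, hp, ?_⟩
      have hnp' : ¬ ∃ D, D ∈ U ∧ f D = p := by
        rintro ⟨D, hD, hDp⟩
        exact hnp D hD hDp
      rw [← hδ2 τ U p hnp']
      exact hmem _
  obtain ⟨c2, hc2, hc2'⟩ := colour3 G h2 T0 hT0 (univ \ univ.image (δ τ U))
    hS2 P (card_part P hP _ (hδP τ hτ2 U))
  -- the final colouring
  have hS : ∀ u, u ∈ univ \ univ.image (δ τ U) ↔ ¬ ∃ p, δ τ U p = u := by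
    intro u
    simp [Finset.mem_sdiff]
  refine ⟨fun u => if ∃ p, δ τ U p = u then 3 else (c2 u).castSucc, ?_, ?_⟩
  · intro u w hadj
    by_cases hu : ∃ p, δ τ U p = u
    · by_cases hw : ∃ p, δ τ U p = w
      · obtain ⟨p, rfl⟩ := hu
        obtain ⟨q, rfl⟩ := hw
        exact absurd hadj (hind p q)
      · simp only [if_pos hu, if_neg hw]
        intro h
        exact absurd h.symm (Fin.castSucc_lt_last (c2 w)).ne
    · by_cases hw : ∃ p, δ τ U p = w
      · simp only [if_pos hw, if_neg hu]
        intro h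
        exact absurd h (Fin.castSucc_lt_last (c2 u)).ne
      · simp only [if_neg hu, if_neg hw]
        intro h
        exact hc2 u ((hS u).mpr hu) w ((hS w).mpr hw) hadj (Fin.castSucc_injective _ h)
  · intro u w hPuw hc
    by_cases hu : ∃ p, δ τ U p = u
    · by_cases hw : ∃ p, δ τ U p = w
      · obtain ⟨p, rfl⟩ := hu
        obtain ⟨q, rfl⟩ := hw
        rw [hδP τ hτ2, hδP τ hτ2] at hPuw
        rw [hPuw]
      · simp only [if_pos hu, if_neg hw] at hc
        exact absurd hc.symm (Fin.castSucc_lt_last (c2 w)).ne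
    · by_cases hw : ∃ p, δ τ U p = w
      · simp only [if_pos hw, if_neg hu] at hc
        exact absurd hc (Fin.castSucc_lt_last (c2 u)).ne
      · simp only [if_neg hu, if_neg hw] at hc
        exact hc2' u ((hS u).mpr hu) w ((hS w).mpr hw) hPuw (Fin.castSucc_injective _ hc)

/-- With at most seven triangles the cycles but at most one triangle have a system of distinct
parts. -/
lemma hall2 (ht : (G.cliqueFinset 3).card ≤ 7) (P : V → ι)
    (hP : ∀ p, (univ.filter (fun v => P v = p)).card = 4) :
    ∃ f : Cy G → Option ι, Function.Injective f ∧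
      ∀ C, (∃ p, f C = some p ∧ p ∈ (supp G C.1).image P) ∨
        (f C = none ∧ (supp G C.1).card = 3) := by
  classical
  let N : Cy G → Finset (Option ι) := fun C =>
    if (supp G C.1).card = 3 then insertNone ((supp G C.1).image P) else
      ((supp G C.1).image P).map Function.Embedding.some
  have hN : ∀ s : Finset (Cy G), s.card ≤ (s.biUnion N).card := by
    intro s
    have h1 : (s.biUnion (fun C => supp G C.1)).card ≤
        4 * (s.biUnion (fun C => (supp G C.1).image P)).card := by
      have h2 : s.biUnion (fun C => (supp G C.1).image P) =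
          (s.biUnion (fun C => supp G C.1)).image P := by
        rw [Finset.biUnion_image]
      rw [h2]
      apply Finset.card_le_mul_card_image
      intro a _
      rw [← hP a]
      exact Finset.card_le_card (Finset.filter_subset_filter _ (Finset.subset_univ _))
    have h2 : (s.biUnion (fun C => supp G C.1)).card = ∑ C ∈ s, (supp G C.1).card := by
      apply Finset.card_biUnion
      intro C _ D _ hCD
      show Disjoint (supp G C.1) (supp G D.1)
      rw [Finset.disjoint_left]
      intro v hv hv'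
      exact hCD (Subtype.ext (supp_disj G hv hv'))
    have h3 : (s.filter (fun C => (supp G C.1).card = 3)).card ≤ 7 := by
      refine le_trans ?_ ht
      apply Finset.card_le_card_of_injOn (fun C : Cy G => supp G C.1)
      · intro C hC
        have := (Finset.mem_filter.mp (Finset.mem_coe.mp hC)).2
        exact Finset.mem_coe.mpr ((card_supp G C).2 this)
      · intro C _ D _ hCD
        obtain ⟨v, hv⟩ := C.1.exists_rep
        have h1 : v ∈ supp G C.1 := (mem_supp G).mpr hv
        have h2 : v ∈ supp G D.1 := by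
          have h3 : supp G C.1 = supp G D.1 := hCD
          rw [← h3]
          exact h1
        exact Subtype.ext (supp_disj G h1 h2)
    have h4 : 4 * s.card ≤ (∑ C ∈ s, (supp G C.1).card) +
        (s.filter (fun C => (supp G C.1).card = 3)).card := by
      rw [Finset.card_filter, ← Finset.sum_add_distrib, mul_comm, ← smul_eq_mul]
      apply Finset.card_nsmul_le_sum
      intro C _
      have := (card_supp G C).1
      by_cases h : (supp G C.1).card = 3
      · rw [if_pos h, h]
      · rw [if_neg h]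
        omega
    rw [h2] at h1
    have h5 : ((s.biUnion (fun C => (supp G C.1).image P)).map Function.Embedding.some) ⊆
        s.biUnion N := by
      intro o ho
      obtain ⟨p, hp, rfl⟩ := Finset.mem_map.mp ho
      obtain ⟨C, hC, hpC⟩ := Finset.mem_biUnion.mp hp
      refine Finset.mem_biUnion.mpr ⟨C, hC, ?_⟩
      simp only [N]
      split_ifs
      · exact Finset.some_mem_insertNone.mpr hpC
      · exact Finset.mem_map_of_mem _ hpC
    by_cases h6 : (s.filter (fun C => (supp G C.1).card = 3)).Nonempty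
    · obtain ⟨C, hC⟩ := h6
      have h7 : insertNone (s.biUnion (fun C => (supp G C.1).image P)) ⊆ s.biUnion N := by
        intro o ho
        rcases o with _ | p
        · refine Finset.mem_biUnion.mpr ⟨C, (Finset.mem_filter.mp hC).1, ?_⟩
          simp only [N]
          rw [if_pos (Finset.mem_filter.mp hC).2]
          exact Finset.none_mem_insertNone
        · exact h5 (Finset.mem_map_of_mem _ (Finset.some_mem_insertNone.mp ho))
      have h8 := Finset.card_le_card h7
      rw [Finset.card_insertNone] at h8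
      omega
    · have h7 : (s.filter (fun C => (supp G C.1).card = 3)).card = 0 := by
        rw [Finset.not_nonempty_iff_eq_empty.mp h6, Finset.card_empty]
      have h8 := Finset.card_le_card h5
      rw [Finset.card_map] at h8
      omega
  obtain ⟨f, hf, hfN⟩ := (Finset.all_card_le_biUnion_card_iff_exists_injective N).mp hN
  refine ⟨f, hf, fun C => ?_⟩
  have h1 := hfN C
  simp only [N] at h1
  split_ifs at h1 with h3
  · cases h : f C with
    | none => exact Or.inr ⟨rfl, h3⟩
    | some p =>
      left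
      rw [h] at h1
      exact ⟨p, rfl, Finset.some_mem_insertNone.mp h1⟩
  · left
    obtain ⟨p, hp, hp2⟩ := Finset.mem_map.mp h1
    exact ⟨p, hp2.symm, hp⟩

/-- **Main theorem**, partitions into blocks of size four. -/
theorem main7 (h2 : ∀ v, (univ.filter (G.Adj v)).card ≤ 2) (ht : (G.cliqueFinset 3).card ≤ 7)
    (P : V → ι) (hP : ∀ p, (univ.filter (fun v => P v = p)).card = 4) :
    ∃ c : V → Fin 4, (∀ u w, G.Adj u w → c u ≠ c w) ∧
      (∀ u w, P u = P w → c u = c w → u = w) := by
  classical
  obtain ⟨f, hf, hfP⟩ := hall2 G ht P hP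
  by_cases hT : ∃ T0, f T0 = none
  · obtain ⟨T0, hT0⟩ := hT
    have h3 : (supp G T0.1).card = 3 := by
      rcases hfP T0 with ⟨p, hp, _⟩ | ⟨_, h⟩
      · rw [hT0] at hp
        exact absurd hp (by simp)
      · exact h
    have h4 : ∀ C : {C : Cy G // C ≠ T0}, ∃ p, f C.1 = some p ∧ p ∈ (supp G C.1.1).image P := by
      intro C
      rcases hfP C.1 with h | ⟨h, _⟩
      · exact h
      · exact absurd (hf (h.trans hT0.symm)) C.2
    choose g hg1 hg2 using h4
    have : ∀ C : {C : Cy G // C ≠ T0}, ∃ v, v ∈ supp G C.1.1 ∧ P v = g C := by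
      intro C
      obtain ⟨v, hv, hv'⟩ := Finset.mem_image.mp (hg2 C)
      exact ⟨v, hv, hv'⟩
    choose v hv hv' using this
    refine core2 G h2 T0 h3 P hP g ?_ v hv hv'
    intro C D hCD
    apply Subtype.ext
    apply hf
    rw [hg1, hg1, hCD]
  · push Not at hT
    have h4 : ∀ C : Cy G, ∃ p, f C = some p ∧ p ∈ (supp G C.1).image P := by
      intro C
      rcases hfP C with h | ⟨h, _⟩
      · exact h
      · exact absurd h (hT C)
    choose g hg1 hg2 using h4
    have : ∀ C : Cy G, ∃ v, v ∈ supp G C.1 ∧ P v = g C := by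
      intro C
      obtain ⟨v, hv, hv'⟩ := Finset.mem_image.mp (hg2 C)
      exact ⟨v, hv, hv'⟩
    choose v hv hv' using this
    refine core G h2 P hP g ?_ v hv hv'
    intro C D hCD
    apply hf
    rw [hg1, hg1, hCD]

end Pool.Agent.Helper79.SC
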