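import Pool.Agent.Helper79.SC.Final
import Pool.Agent.Helper79.SC.Main2

/-!
# The statement in terms of the strong chromatic number, at most seven triangles
-/

set_option autoImplicit false

namespace Pool.Agent.Helper79.SC

open Finset

variable {V : Type*} [Finite V]

lemma block7 (G : SimpleGraph V) (h2 : ∀ v, (G.neighborSet v).ncard ≤ 2)
    (ht : triangles G ≤ 7) : BlockColourable G 4 := by
  classical
  intro m P hP
  have : Fintype V := Fintype.ofFinite V
  apply main7 G _ _ P
  · intro p
    rw [← hP p, Set.ncard_eq_toFinset_card']
    congr 1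
    ext v
    simp
  · intro v
    have := h2 v
    rw [Set.ncard_eq_toFinset_card'] at this
    refine le_trans (le_of_eq ?_) this
    congr 1
    ext v
    simp
  · refine le_trans (le_of_eq ?_) ht
    rw [triangles, Set.ncard_eq_toFinset_card']
    congr 1
    ext v
    simp [SimpleGraph.mem_cliqueFinset_iff]

theorem strongly7 (G : SimpleGraph V) (h2 : ∀ v, (G.neighborSet v).ncard ≤ 2)
    (ht : triangles G ≤ 7) : StronglyColourable G 4 := by
  rw [StronglyColourable]
  split_ifs with h
  · exact block7 G h2 ht
  · apply block7
    · intro v
      rcases v with v | v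
      · rw [neighbor_inl, Set.ncard_image_of_injective _ Sum.inl_injective]
        exact h2 v
      · rw [neighbor_inr]
        simp
    · exact (triangles_sum G).trans ht

theorem strong_le7 (G : SimpleGraph V) (h2 : ∀ v, (G.neighborSet v).ncard ≤ 2)
    (ht : triangles G ≤ 7) : strongChromaticNumber G ≤ 4 :=
  Nat.sInf_le ⟨by norm_num, strongly7 G h2 ht⟩

end Pool.Agent.Helper79.SC
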