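import Pool.Agent.Helper79.SC.Path

/-!
# Linear forests plus triangles
-/

set_option autoImplicit false

namespace Pool.Agent.Helper79.SC

open Finset

variable {W : Type*} [Fintype W] [DecidableEq W] (G : SimpleGraph W) [DecidableRel G.Adj]

/-- positions such that no vertex of `S` lies strictly between adjacent vertices of `S` -/
def Good (S : Finset W) (pos : W → ℚ) : Prop :=
  (∀ u ∈ S, ∀ v ∈ S, pos u = pos v → u = v) ∧
    ∀ u ∈ S, ∀ v ∈ S, G.Adj u v → ∀ x ∈ S, pos u < pos x → pos x < pos v → False

omit [Fintype W] [DecidableEq W] [DecidableRel G.Adj] in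
lemma Good.neg {S : Finset W} {pos : W → ℚ} (h : Good G S pos) : Good G S (fun v => - pos v) := by
  refine ⟨fun u hu v hv huv => h.1 u hu v hv (by simpa using huv), ?_⟩
  intro u hu v hv huv x hx h1 h2
  exact h.2 v hv u hu huv.symm x hx (by linarith) (by linarith)

lemma exists_right (A : Finset ℚ) (c : ℚ) : ∃ a, c < a ∧ ∀ b ∈ A, c < b → a < b := by
  induction A using Finset.induction_on with
  | empty => exact ⟨c + 1, by linarith, by simp⟩
  | insert d A _ ih =>
    obtain ⟨a, h1, h2⟩ := ih
    by_cases hd : c < d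
    · obtain ⟨a', h3, h4⟩ := exists_between (lt_min h1 hd)
      refine ⟨a', h3, fun b hb hcb => ?_⟩
      rcases Finset.mem_insert.mp hb with rfl | hb
      · exact h4.trans_le (min_le_right _ _)
      · exact (h4.trans_le (min_le_left _ _)).trans (h2 b hb hcb)
    · refine ⟨a, h1, fun b hb hcb => ?_⟩
      rcases Finset.mem_insert.mp hb with rfl | hb
      · exact absurd hcb hd
      · exact h2 b hb hcb

omit [Fintype W] [DecidableRel G.Adj] in
lemma insert_right {S : Finset W} {pos : W → ℚ} {v w : W} (hv : v ∈ S) (hw : w ∈ S) (hvw : v ≠ w)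
    (h : Good G (S.erase v) pos) (hn : ∀ y ∈ S, G.Adj v y → y = w)
    (hr : ∀ y ∈ S.erase v, G.Adj w y → ¬ pos w < pos y) : ∃ pos', Good G S pos' := by
  obtain ⟨a, h1, h2⟩ := exists_right ((S.erase v).image pos) (pos w)
  have h2' : ∀ x ∈ S, x ≠ v → pos w < pos x → a < pos x := by
    intro x hx hxv hlt
    exact h2 (pos x) (Finset.mem_image_of_mem _ (Finset.mem_erase.mpr ⟨hxv, hx⟩)) hlt
  have hws : w ∈ S.erase v := Finset.mem_erase.mpr ⟨hvw.symm, hw⟩
  have hne : ∀ x ∈ S, x ≠ v → pos x ≠ a := by
    intro x hx hxv he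
    by_cases hlt : pos w < pos x
    · exact absurd (h2' x hx hxv hlt) (by rw [he]; exact lt_irrefl _)
    · rw [he] at hlt
      exact hlt h1
  refine ⟨Function.update pos v a, ?_, ?_⟩
  · intro x hx y hy hxy
    by_cases hxv : x = v
    · by_cases hyv : y = v
      · rw [hxv, hyv]
      · rw [hxv, Function.update_self, Function.update_of_ne hyv] at hxy
        exact absurd hxy.symm (hne y hy hyv)
    · by_cases hyv : y = v
      · rw [hyv, Function.update_self, Function.update_of_ne hxv] at hxy
        exact absurd hxy (hne x hx hxv)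
      · rw [Function.update_of_ne hxv, Function.update_of_ne hyv] at hxy
        exact h.1 x (Finset.mem_erase.mpr ⟨hxv, hx⟩) y (Finset.mem_erase.mpr ⟨hyv, hy⟩) hxy
  · intro x hx y hy hadj z hz hxz hzy
    by_cases hxv : x = v
    · subst hxv
      have : y = w := hn y hy hadj
      subst this
      rw [Function.update_self] at hxz
      rw [Function.update_of_ne hvw.symm] at hzy
      linarith
    · by_cases hyv : y = v
      · subst hyv
        have : x = w := hn x hx hadj.symm
        subst this
        rw [Function.update_self] at hzy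
        rw [Function.update_of_ne hxv] at hxz
        have hzv : z ≠ y := by
          rintro rfl
          rw [Function.update_self] at hzy
          exact lt_irrefl _ hzy
        rw [Function.update_of_ne hzv] at hxz hzy
        have := h2' z hz hzv hxz
        linarith
      · rw [Function.update_of_ne hxv] at hxz
        rw [Function.update_of_ne hyv] at hzy
        have hxs : x ∈ S.erase v := Finset.mem_erase.mpr ⟨hxv, hx⟩
        have hys : y ∈ S.erase v := Finset.mem_erase.mpr ⟨hyv, hy⟩
        by_cases hzv : z = v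
        · subst hzv
          rw [Function.update_self] at hxz hzy
          have h3 : ¬ pos w < pos x := by
            intro h4
            have := h2' x hx hxv h4
            linarith
          rcases lt_or_eq_of_le (not_lt.mp h3) with h4 | h4
          · exact h.2 x hxs y hys hadj w hws h4 (h1.trans hzy)
          · have : x = w := h.1 x hxs w hws h4
            subst this
            exact hr y hys hadj (h1.trans hzy)
        · rw [Function.update_of_ne hzv] at hxz hzy
          exact h.2 x hxs y hys hadj z (Finset.mem_erase.mpr ⟨hzv, hz⟩) hxz hzy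

omit [Fintype W] [DecidableRel G.Adj] in
lemma insert_top {S : Finset W} {pos : W → ℚ} {v : W} (hv : v ∈ S)
    (h : Good G (S.erase v) pos) (hn : ∀ y ∈ S, ¬ G.Adj v y) : ∃ pos', Good G S pos' := by
  obtain ⟨a, ha⟩ : ∃ a, ∀ x ∈ S.erase v, pos x < a := by
    obtain ⟨M, hM⟩ := (((S.erase v).image pos).bddAbove)
    refine ⟨M + 1, fun x hx => ?_⟩
    have := hM (Finset.mem_coe.mpr (Finset.mem_image_of_mem pos hx))
    linarith
  have ha' : ∀ x ∈ S, x ≠ v → pos x < a := fun x hx hxv => ha x (Finset.mem_erase.mpr ⟨hxv, hx⟩)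
  refine ⟨Function.update pos v a, ?_, ?_⟩
  · intro x hx y hy hxy
    by_cases hxv : x = v
    · by_cases hyv : y = v
      · rw [hxv, hyv]
      · rw [hxv, Function.update_self, Function.update_of_ne hyv] at hxy
        exact absurd hxy.symm (ha' y hy hyv).ne
    · by_cases hyv : y = v
      · rw [hyv, Function.update_self, Function.update_of_ne hxv] at hxy
        exact absurd hxy (ha' x hx hxv).ne
      · rw [Function.update_of_ne hxv, Function.update_of_ne hyv] at hxy
        exact h.1 x (Finset.mem_erase.mpr ⟨hxv, hx⟩) y (Finset.mem_erase.mpr ⟨hyv, hy⟩) hxy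
  · intro x hx y hy hadj z hz hxz hzy
    by_cases hxv : x = v
    · subst hxv
      exact hn y hy hadj
    · by_cases hyv : y = v
      · subst hyv
        exact hn x hx hadj.symm
      · rw [Function.update_of_ne hxv] at hxz
        rw [Function.update_of_ne hyv] at hzy
        have hxs : x ∈ S.erase v := Finset.mem_erase.mpr ⟨hxv, hx⟩
        have hys : y ∈ S.erase v := Finset.mem_erase.mpr ⟨hyv, hy⟩
        by_cases hzv : z = v
        · subst hzv
          rw [Function.update_self] at hzy
          have := ha y hys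
          linarith
        · rw [Function.update_of_ne hzv] at hxz hzy
          exact h.2 x hxs y hys hadj z (Finset.mem_erase.mpr ⟨hzv, hz⟩) hxz hzy

theorem exists_good (h2 : ∀ v, (univ.filter (G.Adj v)).card ≤ 2)
    (S : Finset W)
    (hac : ∀ S' ⊆ S, S'.Nonempty → ∃ v ∈ S', (S'.filter (G.Adj v)).card ≤ 1) :
    ∃ pos, Good G S pos := by
  induction S using Finset.strongInduction with
  | H S ih =>
    rcases S.eq_empty_or_nonempty with rfl | hS
    · exact ⟨fun _ => 0, by simp [Good]⟩
    · obtain ⟨v, hv, hc⟩ := hac S (Finset.Subset.refl S) hS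
      obtain ⟨pos, hpos⟩ := ih (S.erase v) (Finset.erase_ssubset hv)
        (fun S' hS' => hac S' (hS'.trans (Finset.erase_subset v S)))
      rcases Nat.eq_zero_or_pos (S.filter (G.Adj v)).card with h0 | h0
      · apply insert_top G hv hpos
        intro y hy hadj
        have := Finset.card_eq_zero.mp h0
        have hmem : y ∈ S.filter (G.Adj v) := Finset.mem_filter.mpr ⟨hy, hadj⟩
        rw [this] at hmem
        exact absurd hmem (Finset.notMem_empty _)
      · have h1 : (S.filter (G.Adj v)).card = 1 := by omega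
        obtain ⟨w, hw⟩ := Finset.card_eq_one.mp h1
        have hwm : w ∈ S.filter (G.Adj v) := by rw [hw]; exact Finset.mem_singleton_self _
        have hwS := (Finset.mem_filter.mp hwm).1
        have hvw := (Finset.mem_filter.mp hwm).2
        have hn : ∀ y ∈ S, G.Adj v y → y = w := by
          intro y hy hadj
          have : y ∈ S.filter (G.Adj v) := Finset.mem_filter.mpr ⟨hy, hadj⟩
          rw [hw] at this
          exact Finset.mem_singleton.mp this
        -- at most one neighbour of `w` in `S.erase v`
        have huniq : ∀ y ∈ S.erase v, ∀ z ∈ S.erase v, G.Adj w y → G.Adj w z → y = z := by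
          intro y hy z hz hwy hwz
          by_contra hyz
          have h3 : ({v, y, z} : Finset W) ⊆ univ.filter (G.Adj w) := by
            intro x hx
            simp only [Finset.mem_insert, Finset.mem_singleton] at hx
            rw [Finset.mem_filter]
            rcases hx with rfl | rfl | rfl
            · exact ⟨Finset.mem_univ _, hvw.symm⟩
            · exact ⟨Finset.mem_univ _, hwy⟩
            · exact ⟨Finset.mem_univ _, hwz⟩
          have h4 := Finset.card_le_card h3
          have h5 : ({v, y, z} : Finset W).card = 3 := by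
            rw [Finset.card_eq_three]
            exact ⟨v, y, z, (Finset.mem_erase.mp hy).1.symm, (Finset.mem_erase.mp hz).1.symm,
              hyz, rfl⟩
          have h6 := h2 w
          omega
        by_cases hr : ∀ y ∈ S.erase v, G.Adj w y → ¬ pos w < pos y
        · exact insert_right G hv hwS hvw.ne hpos hn hr
        · push Not at hr
          obtain ⟨y, hy, hwy, hlt⟩ := hr
          apply insert_right G hv hwS hvw.ne hpos.neg hn
          intro z hz hwz hlt'
          have := huniq y hy z hz hwy hwz
          subst this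
          linarith

variable {ι : Type*} [Fintype ι] [DecidableEq ι]

/-- A linear forest plus triangles is 3-colourable. -/
theorem forest_colour (h2 : ∀ v, (univ.filter (G.Adj v)).card ≤ 2)
    (S : Finset W)
    (hac : ∀ S' ⊆ S, S'.Nonempty → ∃ v ∈ S', (S'.filter (G.Adj v)).card ≤ 1)
    (P : W → ι) (hP : ∀ p, (S.filter (fun v => P v = p)).card = 3) :
    ∃ c : W → Fin 3, (∀ u ∈ S, ∀ v ∈ S, G.Adj u v → c u ≠ c v) ∧
      (∀ u ∈ S, ∀ v ∈ S, P u = P v → c u = c v → u = v) := by
  classical
  obtain ⟨pos, hinj, hbet⟩ := exists_good G h2 S hac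
  -- the order
  let pos' : S → ℚ := fun v => pos v
  have hpos' : Function.Injective pos' := by
    intro u v h
    exact Subtype.ext (hinj u u.2 v v.2 h)
  let _ : LinearOrder S := LinearOrder.lift' pos' hpos'
  have hlt : ∀ u v : S, u < v ↔ pos u < pos v := fun u v => Iff.rfl
  let f : Fin (Fintype.card S) ≃o S := monoEquivOfFin S rfl
  -- the parts
  have hfib : ∀ p, Nonempty (Fin 3 ≃ {v : S // P v = p}) := by
    intro p
    have hc : Fintype.card {v : S // P v = p} = 3 := by
      rw [← hP p, Fintype.card_subtype]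
      rw [← Finset.card_map (Function.Embedding.subtype (fun v => v ∈ S))]
      congr 1
      ext v
      simp only [Finset.mem_map, Finset.mem_filter, Finset.mem_univ, true_and,
        Function.Embedding.subtype_apply]
      constructor
      · rintro ⟨a, ha, rfl⟩
        exact ⟨a.2, ha⟩
      · rintro ⟨ha, hb⟩
        exact ⟨⟨v, ha⟩, hb, rfl⟩
    exact ⟨(Fintype.equivFinOfCardEq hc).symm⟩
  let g : ∀ p, Fin 3 ≃ {v : S // P v = p} := fun p => (hfib p).some
  let e1 : ι × Fin 3 ≃ S :=
    ((Equiv.sigmaEquivProd ι (Fin 3)).symm.trans (Equiv.sigmaCongrRight g)).trans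
      (Equiv.sigmaFiberEquiv (fun v : S => P v))
  have he1 : ∀ x, P (e1 x) = x.1 := by
    intro x
    exact (g x.1 x.2).2
  obtain ⟨x, hx⟩ := path_colour (e1.trans f.symm.toEquiv)
  have hsymm : ∀ j, (e1.trans f.symm.toEquiv).symm j = e1.symm (f j) := fun j => rfl
  let c : W → Fin 3 := fun v => if hv : v ∈ S then
    x (e1.symm ⟨v, hv⟩).1 (e1.symm ⟨v, hv⟩).2 else 0
  have hc : ∀ v (hv : v ∈ S), c v = x (e1.symm ⟨v, hv⟩).1 (e1.symm ⟨v, hv⟩).2 := by
    intro v hv
    simp only [c, dif_pos hv]
  -- adjacent and increasing implies consecutive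
  have hadj : ∀ u (hu : u ∈ S) v (hv : v ∈ S), G.Adj u v → pos u < pos v → c u ≠ c v := by
    intro u hu v hv huv hlt'
    rw [hc u hu, hc v hv]
    have h1 : f.symm ⟨u, hu⟩ < f.symm ⟨v, hv⟩ := by
      rw [f.symm.lt_iff_lt, hlt]
      exact hlt'
    have h3 : ((f.symm ⟨u, hu⟩ : Fin _) : ℕ) + 1 = (f.symm ⟨v, hv⟩ : Fin _) := by
      by_contra hne
      have h4 : ((f.symm ⟨u, hu⟩ : Fin _) : ℕ) < (f.symm ⟨v, hv⟩ : Fin _) := h1
      have h5 : ((f.symm ⟨u, hu⟩ : Fin _) : ℕ) + 1 < (f.symm ⟨v, hv⟩ : Fin _) := by omega
      have h6 := (f.symm ⟨v, hv⟩).2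
      let k : Fin (Fintype.card S) := ⟨(f.symm ⟨u, hu⟩ : ℕ) + 1, h5.trans h6⟩
      have h7 : f.symm ⟨u, hu⟩ < k := by
        rw [Fin.lt_def]
        exact Nat.lt_succ_self _
      have h8 : k < f.symm ⟨v, hv⟩ := by
        rw [Fin.lt_def]
        exact h5
      have h9 : (⟨u, hu⟩ : S) < f k := by
        have := f.lt_iff_lt.mpr h7
        rwa [OrderIso.apply_symm_apply] at this
      have h10 : f k < (⟨v, hv⟩ : S) := by
        have := f.lt_iff_lt.mpr h8
        rwa [OrderIso.apply_symm_apply] at this
      rw [hlt] at h9 h10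
      exact hbet u hu v hv huv (f k) (f k).2 h9 h10
    have h4 := hx _ _ h3
    rw [hsymm, hsymm, OrderIso.apply_symm_apply, OrderIso.apply_symm_apply] at h4
    exact h4
  refine ⟨c, ?_, ?_⟩
  · intro u hu v hv huv
    rcases lt_trichotomy (pos u) (pos v) with h | h | h
    · exact hadj u hu v hv huv h
    · exact absurd (hinj u hu v hv h) huv.ne
    · exact (hadj v hv u hu huv.symm h).symm
  · intro u hu v hv hPuv hcuv
    rw [hc u hu, hc v hv] at hcuv
    have h1 : (e1.symm ⟨u, hu⟩).1 = (e1.symm ⟨v, hv⟩).1 := by
      rw [← he1, ← he1, Equiv.apply_symm_apply, Equiv.apply_symm_apply]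
      exact hPuv
    rw [h1] at hcuv
    have h3 := (x _).injective hcuv
    have h4 : e1.symm ⟨u, hu⟩ = e1.symm ⟨v, hv⟩ := Prod.ext h1 h3
    have h5 := e1.symm.injective h4
    exact congrArg Subtype.val h5

end Pool.Agent.Helper79.SC
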