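import Mathlib

/-!
# A parity lemma

`B` is a symmetric pairing between choices of different coordinates whose sum over all choices of
one coordinate vanishes. Then the number of choice functions `w` such that every coordinate pairs
evenly with all the others is odd.
-/

set_option autoImplicit false

namespace Pool.Agent.Helper79.SC

open Finset

variable {ι X : Type*} [Fintype ι] [DecidableEq ι] [Fintype X]

lemma sum_eq_zero_of_coord (p : ι) (F : (ι → X) → ZMod 2)
    (h : ∀ w : ι → X, ∑ x, F (Function.update w p x) = 0) : ∑ w, F w = 0 := by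
  rw [← (Equiv.funSplitAt p X).symm.sum_comp, Fintype.sum_prod_type, Finset.sum_comm]
  apply Finset.sum_eq_zero
  intro r _
  rcases isEmpty_or_nonempty X with hX | ⟨⟨x0⟩⟩
  · simp
  · rw [← h ((Equiv.funSplitAt p X).symm (x0, r))]
    apply Finset.sum_congr rfl
    intro x _
    congr 1
    funext j
    by_cases hj : j = p
    · subst hj
      simp [Equiv.funSplitAt, Equiv.piSplitAt]
    · simp [Equiv.funSplitAt, Equiv.piSplitAt, hj]

/-- matrix of the expansion -/
def M (B : ι → X → ι → X → ZMod 2) (p : ι) (x : X) (q : ι) (y : X) : ZMod 2 :=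
  if q = p then 1 else B p x q y

variable (B : ι → X → ι → X → ZMod 2)

omit [Fintype X] in
lemma sum_M (w : ι → X) (p : ι) :
    1 + ∑ q ∈ univ.erase p, B p (w p) q (w q) = ∑ q, M B p (w p) q (w q) := by
  rw [← Finset.add_sum_erase univ _ (Finset.mem_univ p)]
  congr 1
  · simp [M]
  · apply Finset.sum_congr rfl
    intro q hq
    simp [M, (Finset.mem_erase.mp hq).1]

lemma expand :
    ∑ w : ι → X, ∏ p, (1 + ∑ q ∈ univ.erase p, B p (w p) q (w q)) =
      ∑ g : ι → ι, ∑ w : ι → X, ∏ p, M B p (w p) (g p) (w (g p)) := by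
  rw [Finset.sum_comm]
  apply Finset.sum_congr rfl
  intro w _
  simp_rw [sum_M]
  rw [Finset.prod_univ_sum]
  rw [Fintype.piFinset_univ]

lemma not_surj (zero : ∀ p q y, p ≠ q → ∑ x, B p x q y = 0) (g : ι → ι)
    (hg : ¬ Function.Surjective g) : ∑ w : ι → X, ∏ p, M B p (w p) (g p) (w (g p)) = 0 := by
  have ⟨p0, hp0⟩ : ∃ p, ∀ q, g q ≠ p := by
    by_contra hc
    push Not at hc
    exact hg fun p => hc p
  apply sum_eq_zero_of_coord p0
  intro w
  have : ∀ x, ∏ p, M B p (Function.update w p0 x p) (g p) (Function.update w p0 x (g p)) =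
      B p0 x (g p0) (w (g p0)) * ∏ p ∈ univ.erase p0, M B p (w p) (g p) (w (g p)) := by
    intro x
    rw [← Finset.mul_prod_erase univ _ (Finset.mem_univ p0)]
    congr 1
    · simp [M, hp0 p0]
    · apply Finset.prod_congr rfl
      intro p hp
      rw [Function.update_of_ne (Finset.mem_erase.mp hp).1, Function.update_of_ne (hp0 p)]
  simp_rw [this]
  rw [← Finset.sum_mul, zero p0 (g p0) _ (hp0 p0).symm, zero_mul]

lemma invol (zero : ∀ p q y, p ≠ q → ∑ x, B p x q y = 0)
    (symm : ∀ p x q y, p ≠ q → B p x q y = B q y p x) (s : Equiv.Perm ι) (hs : s ≠ 1) (h2 : s⁻¹ = s) :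
    ∑ w : ι → X, ∏ p, M B p (w p) (s p) (w (s p)) = 0 := by
  have ⟨p0, hp0⟩ : ∃ p, s p ≠ p := by
    by_contra hc
    push Not at hc
    exact hs (Equiv.ext hc)
  have hss : ∀ p, s (s p) = p := by
    intro p
    have : s⁻¹ (s p) = p := by simp
    rw [h2] at this
    exact this
  apply sum_eq_zero_of_coord p0
  intro w
  have : ∀ x, ∏ p, M B p (Function.update w p0 x p) (s p) (Function.update w p0 x (s p)) =
      B p0 x (s p0) (w (s p0)) *
        ∏ p ∈ (univ.erase p0).erase (s p0), M B p (w p) (s p) (w (s p)) := by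
    intro x
    rw [← Finset.mul_prod_erase univ _ (Finset.mem_univ p0)]
    rw [← Finset.mul_prod_erase (univ.erase p0) _
      (Finset.mem_erase.mpr ⟨hp0, Finset.mem_univ (s p0)⟩)]
    rw [← mul_assoc]
    congr 1
    · simp only [M, hss, hp0, hp0.symm, Function.update_self, if_false,
        Function.update_of_ne hp0]
      rw [symm (s p0) _ p0 x hp0]
      have : ∀ a : ZMod 2, a * a = a := by decide
      exact this _
    · apply Finset.prod_congr rfl
      intro p hp
      have h1 := (Finset.mem_erase.mp hp).1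
      have h3 := (Finset.mem_erase.mp (Finset.mem_erase.mp hp).2).1
      have h4 : s p ≠ p0 := by
        intro h
        apply h1
        rw [← h, hss]
      rw [Function.update_of_ne h3, Function.update_of_ne h4]
  simp_rw [this]
  rw [← Finset.sum_mul, zero p0 (s p0) _ hp0.symm, zero_mul]

lemma inv_eq (symm : ∀ p x q y, p ≠ q → B p x q y = B q y p x) (s : Equiv.Perm ι) :
    ∑ w : ι → X, ∏ p, M B p (w p) (s⁻¹ p) (w (s⁻¹ p)) =
      ∑ w : ι → X, ∏ p, M B p (w p) (s p) (w (s p)) := by
  apply Finset.sum_congr rfl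
  intro w _
  rw [← Equiv.prod_comp s]
  apply Finset.prod_congr rfl
  intro p _
  have hinv : s⁻¹ (s p) = p := by simp
  rw [hinv]
  simp only [M]
  by_cases h : s p = p
  · rw [if_pos h, if_pos h.symm]
  · rw [if_neg h, if_neg (fun h' => h h'.symm), symm _ _ _ _ h]

/-- **Parity lemma** -/
theorem parity (hX : (Fintype.card X : ZMod 2) = 1)
    (symm : ∀ p x q y, p ≠ q → B p x q y = B q y p x)
    (zero : ∀ p q y, p ≠ q → ∑ x, B p x q y = 0) :
    ∑ w : ι → X, ∏ p, (1 + ∑ q ∈ univ.erase p, B p (w p) q (w q)) = 1 := by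
  classical
  rw [expand]
  have h1 : ∑ g : ι → ι, ∑ w : ι → X, ∏ p, M B p (w p) (g p) (w (g p)) =
      ∑ s : Equiv.Perm ι, ∑ w : ι → X, ∏ p, M B p (w p) (s p) (w (s p)) := by
    symm
    apply Finset.sum_of_injOn (fun s : Equiv.Perm ι => (s : ι → ι))
    · intro a _ b _ h
      exact DFunLike.coe_injective h
    · intro a _
      simp
    · intro g _ hg
      apply not_surj B zero
      intro hs
      apply hg
      have hb : Function.Bijective g := Finite.surjective_iff_bijective.mp hs
      exact ⟨Equiv.ofBijective g hb, by simp, rfl⟩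
    · intro s _
      rfl
  rw [h1, ← Finset.add_sum_erase univ _ (Finset.mem_univ (1 : Equiv.Perm ι))]
  have h2 : ∑ s ∈ (univ : Finset (Equiv.Perm ι)).erase 1,
      ∑ w : ι → X, ∏ p, M B p (w p) (s p) (w (s p)) = 0 := by
    apply Finset.sum_involution (fun s _ => s⁻¹)
    · intro s _
      rw [inv_eq B symm]
      exact CharTwo.add_self_eq_zero _
    · intro s hs h0 h2
      exact h0 (invol B zero symm s (Finset.mem_erase.mp hs).1 h2)
    · intro s hs
      exact inv_inv s
    · intro s hs
      rw [Finset.mem_erase] at hs ⊢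
      exact ⟨fun h => hs.1 (inv_eq_one.mp h), Finset.mem_univ _⟩
  rw [h2, add_zero]
  have h3 : ∀ w : ι → X, ∏ p, M B p (w p) ((1 : Equiv.Perm ι) p) (w ((1 : Equiv.Perm ι) p)) = 1 := by
    intro w
    apply Finset.prod_eq_one
    intro p _
    simp [M]
  simp_rw [h3]
  simp [Finset.card_univ, hX]

end Pool.Agent.Helper79.SC
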