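import Pool.Agent.Helper79.SC.Parity

/-!
# The parity lemma with one coordinate fixed
-/

set_option autoImplicit false

namespace Pool.Agent.Helper79.SC

open Finset

variable {ι X : Type*} [Fintype ι] [DecidableEq ι] [Fintype X]

variable (B : ι → X → ι → X → ZMod 2)

/-- matrix of the expansion with an inhomogeneous term -/
def ML (l : ι → X → ZMod 2) (p : ι) (x : X) (o : Option ι) (w : ι → X) : ZMod 2 :=
  match o with
  | none => l p x
  | some q => M B p x q (w q)

/-- parity lemma with an inhomogeneous term -/
theorem parity_l (hX : (Fintype.card X : ZMod 2) = 1)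
    (symm : ∀ p x q y, p ≠ q → B p x q y = B q y p x)
    (zero : ∀ p q y, p ≠ q → ∑ x, B p x q y = 0)
    (l : ι → X → ZMod 2) (hl : ∀ p, ∑ x, l p x = 0) :
    ∑ w : ι → X, ∏ p, (1 + l p (w p) + ∑ q ∈ univ.erase p, B p (w p) q (w q)) = 1 := by
  classical
  have h0 : ∀ (w : ι → X) (p : ι), 1 + l p (w p) + ∑ q ∈ univ.erase p, B p (w p) q (w q) =
      ∑ o : Option ι, ML B l p (w p) o w := by
    intro w p
    rw [Fintype.sum_option]
    simp only [ML]
    rw [← sum_M B w p]
    ring
  simp_rw [h0]
  have h1 : ∑ w : ι → X, ∏ p, ∑ o : Option ι, ML B l p (w p) o w =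
      ∑ g : ι → Option ι, ∑ w : ι → X, ∏ p, ML B l p (w p) (g p) w := by
    rw [Finset.sum_comm]
    apply Finset.sum_congr rfl
    intro w _
    rw [Finset.prod_univ_sum, Fintype.piFinset_univ]
  rw [h1]
  have h2 : ∑ g : ι → Option ι, ∑ w : ι → X, ∏ p, ML B l p (w p) (g p) w =
      ∑ g : ι → ι, ∑ w : ι → X, ∏ p, M B p (w p) (g p) (w (g p)) := by
    symm
    apply Finset.sum_of_injOn (fun g : ι → ι => fun p => some (g p))
    · intro a _ b _ h
      funext p
      exact Option.some_injective _ (congrFun h p)
    · intro a _
      simp
    · intro g _ hg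
      have ⟨p0, hp0⟩ : ∃ p, ∀ q, g q ≠ some p := by
        by_contra hc
        push Not at hc
        choose k hk using hc
        have hki : Function.Injective k := by
          intro a b hab
          have := hk a
          rw [hab, hk b] at this
          exact (Option.some_injective _ this).symm
        have hks : Function.Surjective k := Finite.surjective_of_injective hki
        apply hg
        refine ⟨fun p => (hks p).choose, by simp, ?_⟩
        funext p
        have := (hks p).choose_spec
        have h3 := hk (hks p).choose
        rw [this] at h3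
        exact h3.symm
      apply sum_eq_zero_of_coord p0
      intro w
      have : ∀ x, ∏ p, ML B l p (Function.update w p0 x p) (g p) (Function.update w p0 x) =
          ML B l p0 x (g p0) w * ∏ p ∈ univ.erase p0, ML B l p (w p) (g p) w := by
        intro x
        rw [← Finset.mul_prod_erase univ _ (Finset.mem_univ p0)]
        congr 1
        · rw [Function.update_self]
          cases h : g p0 with
          | none => rfl
          | some q =>
            have : q ≠ p0 := by
              rintro rfl
              exact hp0 _ h
            simp only [ML, Function.update_of_ne this]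
        · apply Finset.prod_congr rfl
          intro p hp
          rw [Function.update_of_ne (Finset.mem_erase.mp hp).1]
          cases h : g p with
          | none => rfl
          | some q =>
            have : q ≠ p0 := by
              rintro rfl
              exact hp0 _ h
            simp only [ML, Function.update_of_ne this]
      simp_rw [this]
      rw [← Finset.sum_mul]
      have hz : ∑ x, ML B l p0 x (g p0) w = 0 := by
        cases h : g p0 with
        | none => exact hl p0
        | some q =>
          have : q ≠ p0 := by
            rintro rfl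
            exact hp0 _ h
          simp only [ML, M, if_neg this]
          exact zero p0 q _ this.symm
      rw [hz, zero_mul]
    · intro g _
      rfl
  rw [h2, ← expand]
  exact parity B hX symm zero

/-- parity lemma, one coordinate fixed -/
theorem parity_fix (hX : (Fintype.card X : ZMod 2) = 1) [DecidableEq X]
    (symm : ∀ p x q y, p ≠ q → B p x q y = B q y p x)
    (zero : ∀ p q y, p ≠ q → ∑ x, B p x q y = 0) (p0 : ι) (a : X) :
    ∑ w : ι → X, (if w p0 = a then
      ∏ p, (1 + ∑ q ∈ univ.erase p, B p (w p) q (w q)) else 0) = 1 := by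
  classical
  rw [← (Equiv.funSplitAt p0 X).symm.sum_comp, Fintype.sum_prod_type, Finset.sum_comm]
  have e0 : ∀ (x : X) (r : {j // j ≠ p0} → X), (Equiv.funSplitAt p0 X).symm (x, r) p0 = x := by
    intro x r
    simp [Equiv.funSplitAt, Equiv.piSplitAt]
  have e1 : ∀ (x : X) (r : {j // j ≠ p0} → X) (q : {j // j ≠ p0}),
      (Equiv.funSplitAt p0 X).symm (x, r) q = r q := by
    intro x r q
    simp [Equiv.funSplitAt, Equiv.piSplitAt, q.2]
  have h1 : ∀ r : {j // j ≠ p0} → X, ∑ x : X,
      (if (Equiv.funSplitAt p0 X).symm (x, r) p0 = a then
        ∏ p, (1 + ∑ q ∈ univ.erase p, B p ((Equiv.funSplitAt p0 X).symm (x, r) p) q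
          ((Equiv.funSplitAt p0 X).symm (x, r) q)) else 0) =
      ∏ p : {j // j ≠ p0}, (1 + B p (r p) p0 a +
        ∑ q ∈ univ.erase p, B p (r p) q (r q)) := by
    intro r
    simp_rw [e0]
    rw [Finset.sum_ite_eq' univ a, if_pos (Finset.mem_univ a)]
    set w := (Equiv.funSplitAt p0 X).symm (a, r) with hw
    have hw0 : w p0 = a := e0 a r
    have hw1 : ∀ q : {j // j ≠ p0}, w q = r q := e1 a r
    have hsplit : ∀ F : ι → ZMod 2, ∑ q, F q = F p0 + ∑ q : {j // j ≠ p0}, F q := by
      intro F
      rw [← Finset.add_sum_erase univ F (Finset.mem_univ p0)]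
      congr 1
      rw [Finset.sum_subtype (univ.erase p0) (p := fun j => j ≠ p0) (by simp)]
    -- the row sums
    let R : ι → ZMod 2 := fun p => ∑ q ∈ univ.erase p, B p (w p) q (w q)
    have hR : ∀ p : {j // j ≠ p0}, R p = B p (r p) p0 a + ∑ q ∈ univ.erase p,
        B p (r p) q (r q) := by
      intro p
      have : R p = ∑ q, (if q = (p : ι) then 0 else B p (w p) q (w q)) := by
        rw [← Finset.add_sum_erase univ _ (Finset.mem_univ (p : ι)), if_pos rfl, zero_add]
        apply Finset.sum_congr rfl
        intro q hq
        rw [if_neg (Finset.mem_erase.mp hq).1]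
      rw [this, hsplit, if_neg p.2.symm, hw0, hw1]
      congr 1
      rw [← Finset.add_sum_erase univ _ (Finset.mem_univ p), if_pos rfl, zero_add]
      apply Finset.sum_congr rfl
      intro q hq
      rw [if_neg (fun h => (Finset.mem_erase.mp hq).1 (Subtype.ext h)), hw1]
    have htot : ∑ p, R p = 0 := by
      have h2 : ∑ p, R p = ∑ p, ∑ q, (if q = p then 0 else B p (w p) q (w q)) := by
        apply Finset.sum_congr rfl
        intro p _
        rw [← Finset.add_sum_erase univ _ (Finset.mem_univ p), if_pos rfl, zero_add]
        apply Finset.sum_congr rfl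
        intro q hq
        rw [if_neg (Finset.mem_erase.mp hq).1]
      rw [h2, ← Fintype.sum_prod_type']
      apply Finset.sum_involution (fun x _ => (x.2, x.1))
      · intro x _
        by_cases h : x.2 = x.1
        · simp [h]
        · rw [if_neg h, if_neg (fun h' => h h'.symm), symm _ _ _ _ (fun h' => h h'.symm)]
          exact CharTwo.add_self_eq_zero _
      · intro x _ h0 h3
        apply h0
        have : x.2 = x.1 := congrArg Prod.fst h3
        rw [if_pos this]
      · intro x _
        exact Finset.mem_univ _
      · intro x _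
        rfl
    have hprod : ∏ p, (1 + R p) = (1 + R p0) * ∏ p : {j // j ≠ p0}, (1 + R p) := by
      rw [← Finset.mul_prod_erase univ _ (Finset.mem_univ p0)]
      congr 1
      rw [Finset.prod_subtype (univ.erase p0) (p := fun j => j ≠ p0) (by simp)]
    have hgoal : ∏ p : {j // j ≠ p0}, (1 + R p) = ∏ p : {j // j ≠ p0}, (1 + B p (r p) p0 a +
        ∑ q ∈ univ.erase p, B p (r p) q (r q)) := by
      apply Finset.prod_congr rfl
      intro p _
      rw [hR p, add_assoc]
    show ∏ p, (1 + R p) = _
    rw [hprod, hgoal.symm]
    by_cases hz : ∏ p : {j // j ≠ p0}, (1 + R p) = 0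
    · rw [hz, mul_zero]
    · have hall : ∀ p : {j // j ≠ p0}, R p = 0 := by
        intro p
        have h3 : (1 + R p) ≠ 0 := Finset.prod_ne_zero_iff.mp hz p (Finset.mem_univ p)
        have : ∀ c : ZMod 2, 1 + c ≠ 0 → c = 0 := by decide
        exact this _ h3
      have h4 : R p0 = 0 := by
        rw [hsplit] at htot
        rw [Finset.sum_eq_zero (fun p _ => hall p), add_zero] at htot
        exact htot
      rw [h4, add_zero, one_mul]
  simp_rw [h1]
  exact parity_l (fun (p : {j // j ≠ p0}) x (q : {j // j ≠ p0}) y => B p x q y) hX
    (fun p x q y h => symm p x q y (fun h' => h (Subtype.ext h')))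
    (fun p q y h => zero p q y (fun h' => h (Subtype.ext h')))
    (fun p x => B p x p0 a) (fun p => zero p p0 a p.2)

end Pool.Agent.Helper79.SC
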