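import Pool.Agent.Helper79.SC.Seq

/-!
# A Hamiltonian path plus triangles is 3-colourable
-/

set_option autoImplicit false

namespace Pool.Agent.Helper79.SC

open Finset

variable {K : Type*} [CommRing K] [CharP K 2]

lemma D_det (z : Fin 3 → K) :
    ∑ s : Equiv.Perm (Fin 3), ∏ i : Fin 3, z i ^ (s i : ℕ) =
      (z 1 - z 0) * ((z 2 - z 0) * (z 2 - z 1)) := by
  have h1 : (Matrix.vandermonde z).det = (z 1 - z 0) * ((z 2 - z 0) * (z 2 - z 1)) := by
    rw [Matrix.det_vandermonde]
    have a0 : Finset.Ioi (0 : Fin 3) = {1, 2} := by decide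
    have a1 : Finset.Ioi (1 : Fin 3) = {2} := by decide
    have a2 : Finset.Ioi (2 : Fin 3) = ∅ := by decide
    rw [Fin.prod_univ_three, a0, a1, a2]
    simp
    ring
  rw [← h1, ← Matrix.det_transpose, Matrix.det_apply']
  apply Finset.sum_congr rfl
  intro s _
  have hs : (((Equiv.Perm.sign s : ℤˣ) : ℤ) : K) = 1 := by
    rcases Int.units_eq_one_or (Equiv.Perm.sign s) with h | h
    · simp [h]
    · simp [h, CharTwo.neg_eq]
  rw [hs, one_mul]
  apply Finset.prod_congr rfl
  intro i _
  simp [Matrix.vandermonde_apply]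

lemma D_zero (z : Fin 3 → K) (i j : Fin 3) (hij : i ≠ j) (h : z i = z j) :
    ∑ s : Equiv.Perm (Fin 3), ∏ i : Fin 3, z i ^ (s i : ℕ) = 0 := by
  rw [D_det]
  fin_cases i <;> fin_cases j <;> simp at hij h <;> simp [h]

lemma D_eval (w : K) (hw : w ^ 2 + w + 1 = 0) (a : Fin 3) (r : Fin 3 → ZMod 2) :
    ∑ s : Equiv.Perm (Fin 3), ∏ i : Fin 3,
      (w ^ (if i = a then 1 else if r i = 0 then 2 else 0)) ^ (s i : ℕ) =
      if ∑ i ∈ univ.erase a, r i = 1 then 1 else 0 := by
  rw [D_det]
  have h2 : (2 : K) = 0 := CharTwo.two_eq_zero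
  have hz : ∀ c : ZMod 2, c = 0 ∨ c = 1 := by decide
  have e0 : (univ : Finset (Fin 3)).erase 0 = {1, 2} := by decide
  have e1 : (univ : Finset (Fin 3)).erase 1 = {0, 2} := by decide
  have e2 : (univ : Finset (Fin 3)).erase 2 = {0, 1} := by decide
  have h11 : (1 : ZMod 2) + 1 ≠ 1 := by decide
  have hb : (w - 1) * ((w ^ 2 - 1) * (w ^ 2 - w)) = 1 := by
    linear_combination (w ^ 3 - 3 * w ^ 2 + 2 * w + 3) * hw - (3 * w + 2) * h2
  fin_cases a
  · rw [show (univ : Finset (Fin 3)).erase ((fun i => i) ⟨0, by decide⟩) = {1, 2} from e0]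
    rw [Finset.sum_pair (by decide)]
    rcases hz (r 1) with h | h <;> rcases hz (r 2) with h' | h' <;>
      simp [h, h', h11] <;> first | linear_combination hb | linear_combination (-1) * hb - h2
  · rw [show (univ : Finset (Fin 3)).erase ((fun i => i) ⟨1, by decide⟩) = {0, 2} from e1]
    rw [Finset.sum_pair (by decide)]
    rcases hz (r 0) with h | h <;> rcases hz (r 2) with h' | h' <;>
      simp [h, h', h11] <;> first | linear_combination hb | linear_combination (-1) * hb - h2
  · rw [show (univ : Finset (Fin 3)).erase ((fun i => i) ⟨2, by decide⟩) = {0, 1} from e2]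
    rw [Finset.sum_pair (by decide)]
    rcases hz (r 0) with h | h <;> rcases hz (r 1) with h' | h' <;>
      simp [h, h', h11] <;> first | linear_combination hb | linear_combination (-1) * hb - h2

variable {ι : Type*} [Fintype ι] [DecidableEq ι] {n : ℕ} (e : ι × Fin 3 ≃ Fin n)

/-- order indicator -/
def L (i j : Fin n) : ZMod 2 := if i < j then 1 else 0

lemma L_add {i j : Fin n} (h : i ≠ j) : L i j + L j i = 1 := by
  rcases lt_or_gt_of_ne h with h' | h'
  · simp [L, h', h'.le, not_lt]
  · simp [L, h', h'.le, not_lt]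

/-- crossing parity of the pair of `p` that omits `a` and the pair of `q` that omits `b` -/
def B (p : ι) (a : Fin 3) (q : ι) (b : Fin 3) : ZMod 2 :=
  ∑ r ∈ univ.erase a, ∑ r' ∈ univ.erase b, L (e (q, r')) (e (p, r))

omit [Fintype ι] [DecidableEq ι] in
lemma B_symm (p : ι) (a : Fin 3) (q : ι) (b : Fin 3) (h : p ≠ q) :
    B e p a q b = B e q b p a := by
  have h1 : B e p a q b + B e q b p a = 0 := by
    have : B e q b p a = ∑ r ∈ univ.erase a, ∑ r' ∈ univ.erase b, L (e (p, r)) (e (q, r')) := by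
      rw [B, Finset.sum_comm]
    rw [this, B, ← Finset.sum_add_distrib]
    simp_rw [← Finset.sum_add_distrib]
    have : ∀ r r' : Fin 3, L (e (q, r')) (e (p, r)) + L (e (p, r)) (e (q, r')) = 1 := by
      intro r r'
      apply L_add
      intro h'
      have := e.injective h'
      exact h (congrArg Prod.fst this).symm
    simp_rw [this]
    simp only [Finset.sum_const, Finset.card_erase_of_mem (Finset.mem_univ _), Finset.card_univ,
      Fintype.card_fin]
    decide
  exact CharTwo.add_eq_zero.mp h1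

lemma sum_erase3 (f : Fin 3 → ZMod 2) : ∑ a : Fin 3, ∑ r ∈ univ.erase a, f r = 0 := by
  have e0 : (univ : Finset (Fin 3)).erase 0 = {1, 2} := by decide
  have e1 : (univ : Finset (Fin 3)).erase 1 = {0, 2} := by decide
  have e2 : (univ : Finset (Fin 3)).erase 2 = {0, 1} := by decide
  rw [Fin.sum_univ_three, e0, e1, e2, Finset.sum_pair (by decide), Finset.sum_pair (by decide),
    Finset.sum_pair (by decide)]
  have : ∀ x y z : ZMod 2, y + z + (x + z) + (x + y) = 0 := by decide
  exact this _ _ _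

omit [Fintype ι] [DecidableEq ι] in
lemma B_sum (p q : ι) (b : Fin 3) : ∑ a, B e p a q b = 0 := by
  simp only [B]
  exact sum_erase3 _

omit [Fintype ι] [DecidableEq ι] in
lemma B_self (p : ι) (a : Fin 3) : B e p a p a = 1 := by
  have key : ∀ x y : Fin 3, x ≠ y →
      L (e (p, x)) (e (p, x)) + L (e (p, y)) (e (p, x)) +
        (L (e (p, x)) (e (p, y)) + L (e (p, y)) (e (p, y))) = 1 := by
    intro x y hxy
    have h1 : L (e (p, x)) (e (p, x)) = 0 := by simp [L]
    have h2 : L (e (p, y)) (e (p, y)) = 0 := by simp [L]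
    rw [h1, h2, zero_add, add_zero]
    apply L_add
    intro h
    exact hxy (congrArg Prod.snd (e.injective h)).symm
  have e0 : (univ : Finset (Fin 3)).erase 0 = {1, 2} := by decide
  have e1 : (univ : Finset (Fin 3)).erase 1 = {0, 2} := by decide
  have e2 : (univ : Finset (Fin 3)).erase 2 = {0, 1} := by decide
  fin_cases a
  · simp only [B]
    rw [show (univ : Finset (Fin 3)).erase ((fun i => i) ⟨0, by decide⟩) = {1, 2} from e0]
    rw [Finset.sum_pair (by decide), Finset.sum_pair (by decide), Finset.sum_pair (by decide)]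
    exact key 1 2 (by decide)
  · simp only [B]
    rw [show (univ : Finset (Fin 3)).erase ((fun i => i) ⟨1, by decide⟩) = {0, 2} from e1]
    rw [Finset.sum_pair (by decide), Finset.sum_pair (by decide), Finset.sum_pair (by decide)]
    exact key 0 2 (by decide)
  · simp only [B]
    rw [show (univ : Finset (Fin 3)).erase ((fun i => i) ⟨2, by decide⟩) = {0, 1} from e2]
    rw [Finset.sum_pair (by decide), Finset.sum_pair (by decide), Finset.sum_pair (by decide)]
    exact key 0 1 (by decide)

/-- the marking that omits `w p` in each part -/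
def mark (w : ι → Fin 3) : Fin n → Bool := fun j => decide ((e.symm j).2 ≠ w (e.symm j).1)

omit [Fintype ι] [DecidableEq ι] in
lemma mark_apply (w : ι → Fin 3) (p : ι) (r : Fin 3) :
    mark e w (e (p, r)) = decide (r ≠ w p) := by
  simp [mark]

omit [DecidableEq ι] in
lemma tot_mark (w : ι → Fin 3) : tot (mark e w) = 0 := by
  rw [tot, ← e.sum_comp, Fintype.sum_prod_type]
  apply Finset.sum_eq_zero
  intro p _
  simp only [mark_apply, decide_eq_true_eq]
  generalize w p = a
  revert a
  decide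

omit [DecidableEq ι] in
lemma rho_mark (w : ι → Fin 3) (j : Fin n) :
    rho (mark e w) j = ∑ q, ∑ r' ∈ univ.erase (w q), L (e (q, r')) j := by
  rw [rho, ← e.sum_comp, Fintype.sum_prod_type]
  apply Finset.sum_congr rfl
  intro q _
  rw [← Finset.sum_filter_add_sum_filter_not univ (fun r => r ≠ w q)]
  have h0 : ∑ x ∈ univ.filter (fun r => ¬ r ≠ w q),
      (if e (q, x) < j ∧ mark e w (e (q, x)) = true then (1 : ZMod 2) else 0) = 0 := by
    apply Finset.sum_eq_zero
    intro x hx
    have : x = w q := by simpa using hx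
    simp [mark_apply, this]
  rw [h0, add_zero, Finset.filter_ne' univ (w q)]
  apply Finset.sum_congr rfl
  intro x hx
  have : x ≠ w q := (Finset.mem_erase.mp hx).1
  simp [mark_apply, this, L]

lemma sum_rho_mark (w : ι → Fin 3) (p : ι) :
    ∑ r ∈ univ.erase (w p), rho (mark e w) (e (p, r)) =
      1 + ∑ q ∈ univ.erase p, B e p (w p) q (w q) := by
  simp_rw [rho_mark]
  rw [Finset.sum_comm, ← Finset.add_sum_erase univ _ (Finset.mem_univ p)]
  congr 1
  exact B_self e p (w p)

/-- the colour (a power of `w`) of a vertex -/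
def Y (w : K) (x : ι → Equiv.Perm (Fin 3)) (j : Fin n) : K :=
  w ^ ((x (e.symm j).1 (e.symm j).2 : Fin 3) : ℕ)

omit [DecidableEq ι] [CharP K 2] in
lemma prod_Y (w : K) (x : ι → Equiv.Perm (Fin 3)) (m : Fin n → ℕ) :
    ∏ j, Y e w x j ^ m j = ∏ p, ∏ r, (w ^ m (e (p, r))) ^ (x p r : ℕ) := by
  rw [← e.prod_comp, Fintype.prod_prod_type]
  apply Finset.prod_congr rfl
  intro p _
  apply Finset.prod_congr rfl
  intro r _
  simp only [Y, Equiv.symm_apply_apply]
  rw [← pow_mul, ← pow_mul, mul_comm]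

omit [CharP K 2] in
lemma sum_prod_Y (w : K) (m : Fin n → ℕ) :
    ∑ x : ι → Equiv.Perm (Fin 3), ∏ j, Y e w x j ^ m j =
      ∏ p, ∑ s : Equiv.Perm (Fin 3), ∏ r, (w ^ m (e (p, r))) ^ (s r : ℕ) := by
  rw [Finset.prod_univ_sum, Fintype.piFinset_univ]
  apply Finset.sum_congr rfl
  intro x _
  exact prod_Y e w x m

omit [DecidableEq ι] in
lemma exists_mark (w : K) (d : Fin n → Bool)
    (h : ∏ p, ∑ s : Equiv.Perm (Fin 3), ∏ r, (w ^ ex 0 d (e (p, r))) ^ (s r : ℕ) ≠ 0) :
    ∃ v : ι → Fin 3, mark e v = d := by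
  have h1 : ∀ p, ∑ s : Equiv.Perm (Fin 3), ∏ r, (w ^ ex 0 d (e (p, r))) ^ (s r : ℕ) ≠ 0 :=
    fun p hp => h (Finset.prod_eq_zero (Finset.mem_univ p) hp)
  have hinj : ∀ p, ∀ i j : Fin 3, i ≠ j → ex 0 d (e (p, i)) ≠ ex 0 d (e (p, j)) := by
    intro p i j hij hh
    exact h1 p (D_zero (fun r => w ^ ex 0 d (e (p, r))) i j hij (by simp [hh]))
  have hval : ∀ j, ex 0 d j = 1 ∧ d j = false ∨ ex 0 d j = 2 ∧ d j = true ∨
      ex 0 d j = 0 ∧ d j = true := by
    intro j
    unfold ex
    cases hd : d j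
    · simp
    · by_cases h0 : (0 : ZMod 2) + rho d j = 0
      · rw [if_pos h0]
        simp
      · rw [if_neg h0]
        simp
  have h2 : ∀ p, ∃ a : Fin 3, ∀ r, d (e (p, r)) = decide (r ≠ a) := by
    intro p
    have i01 := hinj p 0 1 (by decide)
    have i02 := hinj p 0 2 (by decide)
    have i12 := hinj p 1 2 (by decide)
    rcases hval (e (p, 0)) with h0 | h0 | h0 <;> rcases hval (e (p, 1)) with h1 | h1 | h1 <;>
      rcases hval (e (p, 2)) with h2 | h2 | h2 <;>
      first
      | (exfalso; omega)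
      | (refine ⟨0, fun r => ?_⟩; fin_cases r <;> simp [h0, h1, h2]; done)
      | (refine ⟨1, fun r => ?_⟩; fin_cases r <;> simp [h0, h1, h2]; done)
      | (refine ⟨2, fun r => ?_⟩; fin_cases r <;> simp [h0, h1, h2]; done)
  choose v hv using h2
  refine ⟨v, ?_⟩
  funext j
  have := hv (e.symm j).1 (e.symm j).2
  rw [show ((e.symm j).1, (e.symm j).2) = e.symm j from rfl, Equiv.apply_symm_apply] at this
  rw [this]
  rfl

omit [Fintype ι] [DecidableEq ι] in
lemma mark_inj : Function.Injective (mark e) := by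
  intro v v' h
  funext p
  have h1 := congrFun h (e (p, v p))
  rw [mark_apply, mark_apply] at h1
  simpa using h1

theorem path_sum (w : K) (hw : w ^ 2 + w + 1 = 0) (e : ι × Fin 3 ≃ Fin (n + 1)) :
    ∑ x : ι → Equiv.Perm (Fin 3), (Y e w x 0 * Q (Y e w x)) = 1 := by
  have h1 : ∀ x : ι → Equiv.Perm (Fin 3), Y e w x 0 * Q (Y e w x) = G 0 (Y e w x) :=
    fun x => (G_eq _).1.symm
  simp_rw [h1, G]
  rw [Finset.sum_comm]
  have h2 : ∀ d : Fin (n + 1) → Bool, (∑ x : ι → Equiv.Perm (Fin 3),
      if 0 + tot d = 0 then ∏ j, Y e w x j ^ ex 0 d j else 0) =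
      if tot d = 0 then
        ∏ p, ∑ s : Equiv.Perm (Fin 3), ∏ r, (w ^ ex 0 d (e (p, r))) ^ (s r : ℕ) else 0 := by
    intro d
    rw [zero_add]
    by_cases h : tot d = 0
    · simp only [h, if_true]
      exact sum_prod_Y e w _
    · simp only [h, if_false, Finset.sum_const_zero]
  simp_rw [h2]
  have h3 := parity (B e) (by decide) (fun p x q y h => B_symm e p x q y h)
    (fun p q y _ => B_sum e p q y)
  have h4 := congrArg (ZMod.castHom (dvd_refl 2) K) h3
  rw [map_one, map_sum] at h4
  rw [← h4]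
  symm
  apply Finset.sum_of_injOn (mark e)
  · intro a _ b _ h
    exact mark_inj e h
  · intro a _
    simp
  · intro d _ hd
    by_cases h : tot d = 0
    · rw [if_pos h]
      by_contra hne
      obtain ⟨v, hv⟩ := exists_mark e w d hne
      exact hd ⟨v, by simp, hv⟩
    · rw [if_neg h]
  · intro v _
    rw [tot_mark, if_pos rfl, map_prod]
    apply Finset.prod_congr rfl
    intro p _
    have h5 : ∀ r, ex 0 (mark e v) (e (p, r)) =
        if r = v p then 1 else if rho (mark e v) (e (p, r)) = 0 then 2 else 0 := by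
      intro r
      rw [ex, mark_apply, zero_add]
      by_cases hr : r = v p
      · simp [hr]
      · simp [hr]
    simp_rw [h5]
    rw [D_eval w hw (v p) (fun r => rho (mark e v) (e (p, r))), sum_rho_mark]
    generalize 1 + ∑ q ∈ univ.erase p, B e p (v p) q (v q) = c
    have hz : ∀ c : ZMod 2, c = 0 ∨ c = 1 := by decide
    rcases hz c with h | h
    · simp [h]
    · simp [h]

/-- A Hamiltonian path plus disjoint triangles is 3-colourable. -/
theorem path_colour {n : ℕ} (e : ι × Fin 3 ≃ Fin n) :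
    ∃ x : ι → Equiv.Perm (Fin 3), ∀ i j : Fin n, (i : ℕ) + 1 = j →
      x (e.symm i).1 (e.symm i).2 ≠ x (e.symm j).1 (e.symm j).2 := by
  rcases n with _ | n
  · exact ⟨fun _ => 1, fun i => i.elim0⟩
  · obtain ⟨w, hw⟩ : ∃ w : AlgebraicClosure (ZMod 2), w ^ 2 + w + 1 = 0 := by
      have hd : (Polynomial.X ^ 2 + Polynomial.X + 1 :
          Polynomial (AlgebraicClosure (ZMod 2))).degree ≠ 0 := by
        have : (Polynomial.X ^ 2 + Polynomial.X + 1 :
            Polynomial (AlgebraicClosure (ZMod 2))).degree = 2 := by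
          compute_degree!
        rw [this]
        decide
      obtain ⟨w, hw⟩ := IsAlgClosed.exists_root _ hd
      exact ⟨w, by simpa [Polynomial.IsRoot] using hw⟩
    have : CharP (AlgebraicClosure (ZMod 2)) 2 := inferInstance
    have h := path_sum w hw e
    have hne : ∃ x : ι → Equiv.Perm (Fin 3), Y e w x 0 * Q (Y e w x) ≠ 0 := by
      by_contra hc
      push Not at hc
      rw [Finset.sum_eq_zero (fun x _ => hc x)] at h
      exact zero_ne_one h
    obtain ⟨x, hx⟩ := hne
    refine ⟨x, fun i j hij heq => ?_⟩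
    have hQ : Q (Y e w x) ≠ 0 := right_ne_zero_of_mul hx
    have hi : (i : ℕ) < n := by omega
    have := Finset.prod_ne_zero_iff.mp hQ ⟨i, hi⟩ (Finset.mem_univ _)
    apply this
    have e1 : (⟨i, hi⟩ : Fin n).castSucc = i := by
      ext; rfl
    have e2 : (⟨i, hi⟩ : Fin n).succ = j := by
      ext; simpa using hij
    rw [e1, e2]
    simp only [Y]
    rw [heq]
    exact CharTwo.add_self_eq_zero _

end Pool.Agent.Helper79.SC
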