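import Pool.Agent.Helper79.SC.Path
import Pool.Agent.Helper79.SC.Parity2

/-!
# A triangle, a path and the parts
-/

set_option autoImplicit false

namespace Pool.Agent.Helper79.SC

open Finset

variable {K : Type*} [CommRing K]

/-- the parity of the marks at the first three positions -/
def c3 {n : ℕ} (d : Fin (n + 3) → Bool) : ZMod 2 :=
  (if d 0 = true then 1 else 0) + (if d 1 = true then 1 else 0) + (if d 2 = true then 1 else 0)

/-- the path without the first three positions -/
def tl {α : Type*} {n : ℕ} (y : Fin (n + 3) → α) (j : Fin n) : α := y j.succ.succ.succ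

lemma sum_cons3 {n : ℕ} (F : (Fin (n + 3) → Bool) → K) :
    ∑ d, F d = ∑ b0 : Bool, ∑ b1 : Bool, ∑ b2 : Bool, ∑ d : Fin n → Bool,
      F (Fin.cons b0 (Fin.cons b1 (Fin.cons b2 d))) := by
  rw [← (Fin.consEquiv (fun _ : Fin (n + 3) => Bool)).sum_comp, Fintype.sum_prod_type]
  apply Finset.sum_congr rfl
  intro b0 _
  rw [← (Fin.consEquiv (fun _ : Fin (n + 2) => Bool)).sum_comp, Fintype.sum_prod_type]
  apply Finset.sum_congr rfl
  intro b1 _
  rw [← (Fin.consEquiv (fun _ : Fin (n + 1) => Bool)).sum_comp, Fintype.sum_prod_type]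
  rfl

lemma c3_cons {n : ℕ} (b0 b1 b2 : Bool) (d : Fin n → Bool) :
    c3 (Fin.cons b0 (Fin.cons b1 (Fin.cons b2 d)) : Fin (n + 3) → Bool) =
      (if b0 = true then 1 else 0) + (if b1 = true then 1 else 0) +
        (if b2 = true then 1 else 0) := rfl

/-- the generating sum with an even number of marks in the first three positions -/
lemma G3 {n : ℕ} (y : Fin (n + 3) → K) :
    ∑ d : Fin (n + 3) → Bool, (if tot d = 0 ∧ c3 d = 0 then ∏ j, y j ^ ex 0 d j else 0) =
      y 0 * (y 0 + y 1) * (y 1 + y 2) * G 0 (tl y) := by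
  have h2 : (1 : ZMod 2) + 1 = 0 := by decide
  have t1 : (Fin.succ 0 : Fin (n + 3)) = 1 := rfl
  have t2 : (Fin.succ (Fin.succ 0) : Fin (n + 3)) = 2 := rfl
  have key : ∀ (b0 b1 b2 : Bool) (d : Fin n → Bool),
      (∏ j, y j ^ ex 0 (Fin.cons b0 (Fin.cons b1 (Fin.cons b2 d)) : Fin (n + 3) → Bool) j) =
      y 0 ^ (if b0 = true then 2 else 1) *
      (y 1 ^ (if b1 = true then (if (if b0 = true then (1 : ZMod 2) else 0) = 0 then 2 else 0)
        else 1) *
      (y 2 ^ (if b2 = true then (if (if b0 = true then (1 : ZMod 2) else 0) +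
        (if b1 = true then 1 else 0) = 0 then 2 else 0) else 1) *
      ∏ j, tl y j ^ ex ((if b0 = true then 1 else 0) + (if b1 = true then 1 else 0) +
        (if b2 = true then 1 else 0)) d j)) := by
    intro b0 b1 b2 d
    rw [Fin.prod_univ_succ, Fin.prod_univ_succ, Fin.prod_univ_succ]
    simp only [ex_cons_zero, ex_cons_succ, zero_add, if_true]
    rfl
  have key2 : ∀ (b0 b1 b2 : Bool) (d : Fin n → Bool),
      tot (Fin.cons b0 (Fin.cons b1 (Fin.cons b2 d)) : Fin (n + 3) → Bool) =
        (if b0 = true then 1 else 0) + (if b1 = true then 1 else 0) +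
        (if b2 = true then 1 else 0) + tot d := by
    intro b0 b1 b2 d
    rw [tot_cons, tot_cons, tot_cons]
    ring
  rw [sum_cons3]
  simp only [key, key2, c3_cons, Fintype.sum_bool, if_true, Bool.false_eq_true, if_false,
    add_zero, zero_add, h2, one_ne_zero, and_true, and_false, Finset.sum_const_zero]
  rw [G]
  simp only [zero_add]
  have h3 : ∀ (F : (Fin n → Bool) → K) (a : K), (∑ d, if tot d = 0 then a * F d else 0) =
      a * ∑ d, if tot d = 0 then F d else 0 := by
    intro F a
    rw [Finset.mul_sum]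
    apply Finset.sum_congr rfl
    intro d _
    split_ifs
    · rfl
    · rw [mul_zero]
  simp only [← mul_assoc, h3]
  ring

end Pool.Agent.Helper79.SC
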