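import Pool.Agent.Helper79.SC.Path2

/-!
# A triangle, a path and the parts: the sums
-/

set_option autoImplicit false

namespace Pool.Agent.Helper79.SC

open Finset

section Z

variable {ι : Type*} [Fintype ι] [DecidableEq ι] {n : ℕ} (e : ι × Fin 3 ≃ Fin n)

lemma mark_false (v : ι → Fin 3) (j : Fin n) :
    mark e v j = false ↔ v (e.symm j).1 = (e.symm j).2 := by
  simp only [mark, decide_eq_false_iff_not, not_not]
  exact ⟨fun h => h.symm, fun h => h.symm⟩

/-- valid markings that mark a given position: an even number -/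
lemma sum_marked (j : Fin n) :
    ∑ v : ι → Fin 3, (if mark e v j = true then (1 : ZMod 2) else 0) *
      ∏ p, (1 + ∑ q ∈ univ.erase p, B e p (v p) q (v q)) = 0 := by
  have h1 := parity (B e) (by decide) (fun p x q y h => B_symm e p x q y h)
    (fun p q y _ => B_sum e p q y)
  have h2 := parity_fix (B e) (by decide) (fun p x q y h => B_symm e p x q y h)
    (fun p q y _ => B_sum e p q y) (e.symm j).1 (e.symm j).2
  have h3 : ∀ v : ι → Fin 3, (if mark e v j = true then (1 : ZMod 2) else 0) *
      ∏ p, (1 + ∑ q ∈ univ.erase p, B e p (v p) q (v q)) =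
      ∏ p, (1 + ∑ q ∈ univ.erase p, B e p (v p) q (v q)) +
      (if v (e.symm j).1 = (e.symm j).2 then
        ∏ p, (1 + ∑ q ∈ univ.erase p, B e p (v p) q (v q)) else 0) := by
    intro v
    by_cases h : v (e.symm j).1 = (e.symm j).2
    · have h4 := (mark_false e v j).mpr h
      rw [if_pos h, h4, CharTwo.add_self_eq_zero]
      simp
    · have h4 : mark e v j = true := by
        by_contra h5
        exact h ((mark_false e v j).mp (by simpa using h5))
      rw [if_neg h, h4, add_zero]
      simp
  simp_rw [h3]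
  rw [Finset.sum_add_distrib, h1, h2]
  decide

lemma sum_block (e : ι × Fin 3 ≃ Fin (n + 3)) :
    ∑ v : ι → Fin 3, (if c3 (mark e v) = 0 then
      ∏ p, (1 + ∑ q ∈ univ.erase p, B e p (v p) q (v q)) else 0) = 1 := by
  have h1 := parity (B e) (by decide) (fun p x q y h => B_symm e p x q y h)
    (fun p q y _ => B_sum e p q y)
  have h3 : ∀ v : ι → Fin 3, (if c3 (mark e v) = 0 then
      ∏ p, (1 + ∑ q ∈ univ.erase p, B e p (v p) q (v q)) else 0) =
      ∏ p, (1 + ∑ q ∈ univ.erase p, B e p (v p) q (v q)) +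
      ((if mark e v 0 = true then (1 : ZMod 2) else 0) *
        ∏ p, (1 + ∑ q ∈ univ.erase p, B e p (v p) q (v q)) +
      (if mark e v 1 = true then (1 : ZMod 2) else 0) *
        ∏ p, (1 + ∑ q ∈ univ.erase p, B e p (v p) q (v q)) +
      (if mark e v 2 = true then (1 : ZMod 2) else 0) *
        ∏ p, (1 + ∑ q ∈ univ.erase p, B e p (v p) q (v q))) := by
    intro v
    rw [c3]
    generalize ∏ p, (1 + ∑ q ∈ univ.erase p, B e p (v p) q (v q)) = P
    generalize (if mark e v 0 = true then (1 : ZMod 2) else 0) = a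
    generalize (if mark e v 1 = true then (1 : ZMod 2) else 0) = b
    generalize (if mark e v 2 = true then (1 : ZMod 2) else 0) = c
    revert P a b c
    decide
  simp_rw [h3]
  rw [Finset.sum_add_distrib, Finset.sum_add_distrib, Finset.sum_add_distrib, sum_marked,
    sum_marked, sum_marked, h1]
  decide

end Z

variable {K : Type*} [CommRing K] [CharP K 2]
variable {ι : Type*} [Fintype ι] [DecidableEq ι] {n : ℕ}

/-- a general marked sum -/
lemma sum_general (w : K) (hw : w ^ 2 + w + 1 = 0) (e : ι × Fin 3 ≃ Fin n)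
    (c : (Fin n → Bool) → Prop) [DecidablePred c] (hc : ∀ d, c d → tot d = 0) :
    ∑ x : ι → Equiv.Perm (Fin 3), ∑ d : Fin n → Bool,
      (if c d then ∏ j, Y e w x j ^ ex 0 d j else 0) =
      ZMod.castHom (dvd_refl 2) K (∑ v : ι → Fin 3, (if c (mark e v) then
      ∏ p, (1 + ∑ q ∈ univ.erase p, B e p (v p) q (v q)) else 0)) := by
  rw [Finset.sum_comm]
  have h2 : ∀ d : Fin n → Bool, (∑ x : ι → Equiv.Perm (Fin 3),
      if c d then ∏ j, Y e w x j ^ ex 0 d j else 0) =
      if c d then
        ∏ p, ∑ s : Equiv.Perm (Fin 3), ∏ r, (w ^ ex 0 d (e (p, r))) ^ (s r : ℕ) else 0 := by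
    intro d
    by_cases h : c d
    · simp only [h, if_true]
      exact sum_prod_Y e w _
    · simp only [h, if_false, Finset.sum_const_zero]
  simp_rw [h2]
  rw [map_sum]
  symm
  apply Finset.sum_of_injOn (mark e)
  · intro a _ b _ h
    exact mark_inj e h
  · intro a _
    simp
  · intro d _ hd
    by_cases h : c d
    · rw [if_pos h]
      by_contra hne
      obtain ⟨v, hv⟩ := exists_mark e w d hne
      exact hd ⟨v, by simp, hv⟩
    · rw [if_neg h]
  · intro v _
    by_cases h : c (mark e v)
    · rw [if_pos h, if_pos h, map_prod]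
      apply Finset.prod_congr rfl
      intro p _
      have h5 : ∀ r, ex 0 (mark e v) (e (p, r)) =
          if r = v p then 1 else if rho (mark e v) (e (p, r)) = 0 then 2 else 0 := by
        intro r
        rw [ex, mark_apply, zero_add]
        by_cases hr : r = v p
        · simp [hr]
        · simp [hr]
      simp_rw [h5]
      rw [D_eval w hw (v p) (fun r => rho (mark e v) (e (p, r))), sum_rho_mark]
      generalize 1 + ∑ q ∈ univ.erase p, B e p (v p) q (v q) = c
      have hz : ∀ c : ZMod 2, c = 0 ∨ c = 1 := by decide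
      rcases hz c with h | h
      · simp [h]
      · simp [h]
    · rw [if_neg h, if_neg h, map_zero]

/-- the two-path identity -/
theorem block_sum (w : K) (hw : w ^ 2 + w + 1 = 0) (e : ι × Fin 3 ≃ Fin (n + 1 + 3)) :
    ∑ x : ι → Equiv.Perm (Fin 3), Y e w x 0 * (Y e w x 0 + Y e w x 1) *
      (Y e w x 1 + Y e w x 2) * (tl (Y e w x) 0 * Q (tl (Y e w x))) = 1 := by
  have h1 : ∀ x : ι → Equiv.Perm (Fin 3), Y e w x 0 * (Y e w x 0 + Y e w x 1) *
      (Y e w x 1 + Y e w x 2) * (tl (Y e w x) 0 * Q (tl (Y e w x))) =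
      ∑ d : Fin (n + 1 + 3) → Bool,
        (if tot d = 0 ∧ c3 d = 0 then ∏ j, Y e w x j ^ ex 0 d j else 0) := by
    intro x
    rw [G3, (G_eq (tl (Y e w x))).1]
  simp_rw [h1]
  rw [sum_general w hw e (fun d => tot d = 0 ∧ c3 d = 0) (fun d h => h.1)]
  simp only [tot_mark, true_and]
  rw [sum_block, map_one]

end Pool.Agent.Helper79.SC
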