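import Pool.Agent.Helper79.SC.Path3

/-!
# A triangle, a path and the parts: the colouring
-/

set_option autoImplicit false

namespace Pool.Agent.Helper79.SC

open Finset

variable {K : Type*} [CommRing K] [CharP K 2]
variable {ι : Type*} [Fintype ι] [DecidableEq ι] {n : ℕ}

/-- exponents: `c` at the first three positions -/
def ec {n : ℕ} (c : ℕ) (d : Fin n → Bool) : Fin (n + 3) → ℕ :=
  Fin.cons c (Fin.cons c (Fin.cons c (ex 0 d)))

lemma part_even (m : Fin 3 → ℕ) (h2 : ∀ r, m r ≤ 2) (hinj : ∀ i j : Fin 3, i ≠ j → m i ≠ m j) :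
    ∑ r, (if m r ≠ 1 then (1 : ZMod 2) else 0) = 0 := by
  rw [Fin.sum_univ_three]
  have a := h2 0
  have b := h2 1
  have c := h2 2
  have i01 := hinj 0 1 (by decide)
  have i02 := hinj 0 2 (by decide)
  have i12 := hinj 1 2 (by decide)
  generalize m 0 = x at *
  generalize m 1 = y at *
  generalize m 2 = z at *
  have hx : x = 0 ∨ x = 1 ∨ x = 2 := by omega
  have hy : y = 0 ∨ y = 1 ∨ y = 2 := by omega
  have hz : z = 0 ∨ z = 1 ∨ z = 2 := by omega
  rcases hx with rfl | rfl | rfl <;> rcases hy with rfl | rfl | rfl <;>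
    rcases hz with rfl | rfl | rfl <;> first | (exfalso; omega) | decide

lemma ex_le {n : ℕ} (d : Fin n → Bool) (j : Fin n) : ex 0 d j ≤ 2 := by
  unfold ex
  split_ifs <;> omega

lemma ex_ne_one {n : ℕ} (d : Fin n → Bool) (j : Fin n) : ex 0 d j ≠ 1 ↔ d j = true := by
  unfold ex
  split_ifs with h1 h2 <;> simp [h1]

omit [CharP K 2] in
lemma prod_ec {n : ℕ} (y : Fin (n + 3) → K) (c : ℕ) (d : Fin n → Bool) :
    ∏ j, y j ^ ec c d j = y 0 ^ c * (y 1 ^ c * (y 2 ^ c * ∏ j, tl y j ^ ex 0 d j)) := by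
  rw [Fin.prod_univ_succ, Fin.prod_univ_succ, Fin.prod_univ_succ]
  simp only [ec, Fin.cons_zero, Fin.cons_succ]
  rfl

lemma zero_sum (w : K) (hc : ℕ) (hc1 : hc = 0 ∨ hc = 2) (e : ι × Fin 3 ≃ Fin (n + 1 + 3)) :
    ∑ x : ι → Equiv.Perm (Fin 3), (Y e w x 0 * Y e w x 1 * Y e w x 2) ^ hc *
      (tl (Y e w x) 0 * Q (tl (Y e w x))) = 0 := by
  have h1 : ∀ x : ι → Equiv.Perm (Fin 3), (Y e w x 0 * Y e w x 1 * Y e w x 2) ^ hc *
      (tl (Y e w x) 0 * Q (tl (Y e w x))) =
      ∑ d : Fin (n + 1) → Bool, (if tot d = 0 then ∏ j, Y e w x j ^ ec hc d j else 0) := by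
    intro x
    rw [← (G_eq (tl (Y e w x))).1, G, Finset.mul_sum]
    apply Finset.sum_congr rfl
    intro d _
    rw [zero_add]
    by_cases h : tot d = 0
    · rw [if_pos h, if_pos h, prod_ec, mul_pow, mul_pow]
      ring
    · rw [if_neg h, if_neg h, mul_zero]
  simp_rw [h1]
  rw [Finset.sum_comm]
  apply Finset.sum_eq_zero
  intro d _
  by_cases h : tot d = 0
  · simp only [if_pos h]
    rw [sum_prod_Y e w (ec hc d)]
    by_contra hne
    have h2 : ∀ p, ∑ s : Equiv.Perm (Fin 3), ∏ r, (w ^ ec hc d (e (p, r))) ^ (s r : ℕ) ≠ 0 :=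
      fun p hp => hne (Finset.prod_eq_zero (Finset.mem_univ p) hp)
    have hinj : ∀ p, ∀ i j : Fin 3, i ≠ j → ec hc d (e (p, i)) ≠ ec hc d (e (p, j)) := by
      intro p i j hij hh
      exact h2 p (D_zero (fun r => w ^ ec hc d (e (p, r))) i j hij (by simp [hh]))
    have hle : ∀ j, ec hc d j ≤ 2 := by
      intro j
      have hc2 : hc ≤ 2 := by omega
      refine Fin.cases hc2 (fun j => ?_) j
      refine Fin.cases hc2 (fun j => ?_) j
      refine Fin.cases hc2 (fun j => ?_) j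
      exact ex_le d j
    have h3 : ∑ j, (if ec hc d j ≠ 1 then (1 : ZMod 2) else 0) = 0 := by
      rw [← e.sum_comp, Fintype.sum_prod_type]
      apply Finset.sum_eq_zero
      intro p _
      exact part_even (fun r => ec hc d (e (p, r))) (fun r => hle _) (hinj p)
    have h4 : ∑ j, (if ec hc d j ≠ 1 then (1 : ZMod 2) else 0) = 1 + (1 + (1 + tot d)) := by
      have hc3 : hc ≠ 1 := by omega
      rw [Fin.sum_univ_succ, Fin.sum_univ_succ, Fin.sum_univ_succ]
      simp only [ec, Fin.cons_zero, Fin.cons_succ, hc3, ne_eq, not_false_eq_true, if_true]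
      congr 3
      rw [tot]
      apply Finset.sum_congr rfl
      intro j _
      by_cases hj : d j = true
      · rw [if_pos hj, if_pos ((ex_ne_one d j).mpr hj)]
      · rw [if_neg hj, if_neg (fun h' => hj ((ex_ne_one d j).mp h'))]
    rw [h4, h] at h3
    exact absurd h3 (by decide)
  · simp only [if_neg h, Finset.sum_const_zero]

/-- The sum over all colourings that detects rainbow triangles. -/
theorem tri_sum (w : K) (hw : w ^ 2 + w + 1 = 0) (e : ι × Fin 3 ≃ Fin (n + 1 + 3)) :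
    ∑ x : ι → Equiv.Perm (Fin 3),
      (Y e w x 0 * (Y e w x 0 + Y e w x 1) * (Y e w x 1 + Y e w x 2) +
       Y e w x 0 * (Y e w x 0 + Y e w x 2) * (Y e w x 2 + Y e w x 1) +
       Y e w x 1 * (Y e w x 1 + Y e w x 0) * (Y e w x 0 + Y e w x 2) +
       (Y e w x 0 * Y e w x 1 * Y e w x 2) ^ 2 + 1) *
      (tl (Y e w x) 0 * Q (tl (Y e w x))) = 1 := by
  have h1 := block_sum w hw e
  have h2 := block_sum w hw (e.trans (Equiv.swap 1 2))
  have h3 := block_sum w hw (e.trans (Equiv.swap 0 1))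
  have h4 := zero_sum w 2 (Or.inr rfl) e
  have h5 := zero_sum w 0 (Or.inl rfl) e
  have v0 : ((0 : Fin (n + 1 + 3)) : ℕ) = 0 := rfl
  have v1 : ((1 : Fin (n + 1 + 3)) : ℕ) = 1 := rfl
  have v2 : ((2 : Fin (n + 1 + 3)) : ℕ) = 2 := rfl
  have a01 : (0 : Fin (n + 1 + 3)) ≠ 1 := by
    intro h
    have := congrArg Fin.val h
    omega
  have a02 : (0 : Fin (n + 1 + 3)) ≠ 2 := by
    intro h
    have := congrArg Fin.val h
    omega
  have a12 : (1 : Fin (n + 1 + 3)) ≠ 2 := by
    intro h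
    have := congrArg Fin.val h
    omega
  have hY : ∀ (s : Equiv.Perm (Fin (n + 1 + 3))) (x : ι → Equiv.Perm (Fin 3)) (j),
      Y (e.trans s) w x j = Y e w x (s.symm j) := fun s x j => rfl
  have hs : ∀ (i : Fin (n + 1)) (k : Fin (n + 1 + 3)), (k : ℕ) < 3 → i.succ.succ.succ ≠ k := by
    intro i k hk h
    have := congrArg Fin.val h
    simp only [Fin.val_succ] at this
    omega
  have b0 : ((0 : Fin (n + 1 + 3)) : ℕ) < 3 := by omega
  have b1 : ((1 : Fin (n + 1 + 3)) : ℕ) < 3 := by omega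
  have b2 : ((2 : Fin (n + 1 + 3)) : ℕ) < 3 := by omega
  have ht2 : ∀ x : ι → Equiv.Perm (Fin 3), tl (Y (e.trans (Equiv.swap 1 2)) w x) =
      tl (Y e w x) := by
    intro x
    funext i
    simp only [tl, hY, Equiv.symm_swap]
    rw [Equiv.swap_apply_of_ne_of_ne (hs i 1 b1) (hs i 2 b2)]
  have ht3 : ∀ x : ι → Equiv.Perm (Fin 3), tl (Y (e.trans (Equiv.swap 0 1)) w x) =
      tl (Y e w x) := by
    intro x
    funext i
    simp only [tl, hY, Equiv.symm_swap]
    rw [Equiv.swap_apply_of_ne_of_ne (hs i 0 b0) (hs i 1 b1)]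
  simp only [ht2, hY, Equiv.symm_swap, Equiv.swap_apply_left, Equiv.swap_apply_right,
    Equiv.swap_apply_of_ne_of_ne a01 a02] at h2
  simp only [ht3, hY, Equiv.symm_swap, Equiv.swap_apply_left, Equiv.swap_apply_right,
    Equiv.swap_apply_of_ne_of_ne a02.symm a12.symm] at h3
  simp only [pow_zero] at h5
  simp_rw [add_mul _ _ (tl (Y e w _) 0 * Q (tl (Y e w _)))]
  rw [Finset.sum_add_distrib, Finset.sum_add_distrib, Finset.sum_add_distrib,
    Finset.sum_add_distrib, h1, h2, h3, h4, h5]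
  have : (2 : K) = 0 := CharTwo.two_eq_zero
  linear_combination this

end Pool.Agent.Helper79.SC
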