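import Pool.Agent.Helper79.SC.Parity

/-!
# Expansion of a path product
-/

set_option autoImplicit false

namespace Pool.Agent.Helper79.SC

open Finset

variable {K : Type*} [CommRing K]

/-- the parity of the number of marked positions before `j` -/
def rho {n : ℕ} (d : Fin n → Bool) (j : Fin n) : ZMod 2 :=
  ∑ i, if i < j ∧ d i = true then 1 else 0

/-- the parity of the number of marked positions -/
def tot {n : ℕ} (d : Fin n → Bool) : ZMod 2 := ∑ i, if d i = true then 1 else 0

/-- exponent of the `j`-th variable -/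
def ex {n : ℕ} (s : ZMod 2) (d : Fin n → Bool) (j : Fin n) : ℕ :=
  if d j = true then (if s + rho d j = 0 then 2 else 0) else 1

/-- the generating sum -/
def G {n : ℕ} (s : ZMod 2) (y : Fin n → K) : K :=
  ∑ d : Fin n → Bool, if s + tot d = 0 then ∏ j, y j ^ ex s d j else 0

lemma rho_zero {n : ℕ} (d : Fin (n + 1) → Bool) : rho d 0 = 0 := by
  simp [rho]

lemma rho_succ {n : ℕ} (b : Bool) (d : Fin n → Bool) (j : Fin n) :
    rho (Fin.cons b d : Fin (n + 1) → Bool) j.succ = (if b = true then 1 else 0) + rho d j := by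
  rw [rho, Fin.sum_univ_succ, rho]
  simp only [Fin.cons_zero, Fin.cons_succ, Fin.succ_pos, true_and, Fin.succ_lt_succ_iff]

lemma tot_cons {n : ℕ} (b : Bool) (d : Fin n → Bool) :
    tot (Fin.cons b d : Fin (n + 1) → Bool) = (if b = true then 1 else 0) + tot d := by
  rw [tot, Fin.sum_univ_succ, tot]
  simp only [Fin.cons_zero, Fin.cons_succ]

lemma consE {n : ℕ} (b : Bool) (d : Fin n → Bool) :
    (Fin.consEquiv (fun _ : Fin (n + 1) => Bool)) (b, d) = Fin.cons b d := rfl

lemma ex_cons_zero {n : ℕ} (s : ZMod 2) (b : Bool) (d : Fin n → Bool) :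
    ex s (Fin.cons b d : Fin (n + 1) → Bool) 0 =
      if b = true then (if s = 0 then 2 else 0) else 1 := by
  simp [ex, rho_zero]

lemma ex_cons_succ {n : ℕ} (s : ZMod 2) (b : Bool) (d : Fin n → Bool) (j : Fin n) :
    ex s (Fin.cons b d : Fin (n + 1) → Bool) j.succ =
      ex (s + if b = true then 1 else 0) d j := by
  simp [ex, rho_succ, add_assoc]

lemma G_succ {n : ℕ} (s : ZMod 2) (y : Fin (n + 1) → K) :
    G s y = y 0 * G s (fun j => y j.succ) +
      (if s = 0 then y 0 ^ 2 else 1) * G (s + 1) (fun j => y j.succ) := by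
  rw [G, ← (Fin.consEquiv (fun _ => Bool)).sum_comp, Fintype.sum_prod_type]
  rw [Fintype.sum_bool, add_comm]
  congr 1
  · rw [G, Finset.mul_sum]
    apply Finset.sum_congr rfl
    intro d _
    simp only [consE, tot_cons, Fin.prod_univ_succ, ex_cons_zero, ex_cons_succ]
    by_cases h : s + tot d = 0
    · simp [h]
    · simp [h]
  · rw [G, Finset.mul_sum]
    apply Finset.sum_congr rfl
    intro d _
    simp only [consE, tot_cons, Fin.prod_univ_succ, ex_cons_zero, ex_cons_succ]
    by_cases h : s + 1 + tot d = 0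
    · by_cases hs : s = 0
      · simp [hs, ← add_assoc]
      · simp [h, hs, ← add_assoc]
    · simp [h, ← add_assoc]

lemma G_nil (s : ZMod 2) (y : Fin 0 → K) : G s y = if s = 0 then 1 else 0 := by
  simp [G, tot]

/-- the path product -/
def Q {n : ℕ} (y : Fin (n + 1) → K) : K := ∏ j : Fin n, (y j.castSucc + y j.succ)

lemma G_eq {n : ℕ} (y : Fin (n + 1) → K) :
    G 0 y = y 0 * Q y ∧ G 1 y = Q y := by
  have h2 : (1 : ZMod 2) + 1 = 0 := by decide
  induction n with
  | zero =>
    constructor
    · rw [G_succ 0, G_nil, G_nil]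
      simp [Q]
    · rw [G_succ 1, G_nil, h2, G_nil]
      simp [Q]
  | succ n ih =>
    have := ih (fun j => y j.succ)
    have hQ : Q y = (y 0 + y 1) * Q (fun j : Fin (n + 1) => y j.succ) := by
      rw [Q, Fin.prod_univ_succ]
      rfl
    have h0 : (Fin.succ 0 : Fin (n + 2)) = 1 := rfl
    constructor
    · rw [G_succ 0, zero_add, this.1, this.2, hQ]
      simp only [if_true, h0]
      ring
    · rw [G_succ 1, h2, this.1, this.2, hQ]
      simp only [one_ne_zero, if_false, h0]
      ring

end Pool.Agent.Helper79.SC
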